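import Mathlib

/-!
# MP_3fd637_nt : continued fractions (Klein), Moebius measure and Arnold frequencies
Problem level definitions, for every `n`.
-/

open MeasureTheory Filter Topology
open scoped ENNReal

namespace KF

section General

variable {n : ℕ}

/-- The ambient space `ℝ^{n+1}`. -/
abbrev Vec (n : ℕ) := Fin (n + 1) → ℝ

/-- Points of the lattice `ℤ^{n+1}`. -/
def IsIntPt (x : Vec n) : Prop := ∀ i, ∃ k : ℤ, x i = k

/-- The closed cone spanned by the vectors `ε i • v i` (one of the `2^{n+1}` cones of the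
lines `ℝ v i`). -/
def coneOf (v : Fin (n + 1) → Vec n) (ε : Fin (n + 1) → ℤˣ) : Set (Vec n) :=
  {x | ∃ t : Fin (n + 1) → ℝ, (∀ i, 0 ≤ t i) ∧ x = ∑ i, (t i * ((ε i : ℤ) : ℝ)) • v i}

/-- The convex hull of the nonzero integer points of a cone; its boundary is the sail. -/
def klein (v : Fin (n + 1) → Vec n) (ε : Fin (n + 1) → ℤˣ) : Set (Vec n) :=
  convexHull ℝ {x | x ∈ coneOf v ε ∧ x ≠ 0 ∧ IsIntPt x}

/-- `F` is a face (of any dimension) of the continued fraction given by the lines `ℝ v i`: a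
nonempty proper exposed face of the convex hull of the nonzero integer points of one of the
cones. -/
def IsFace (v : Fin (n + 1) → Vec n) (F : Set (Vec n)) : Prop :=
  ∃ ε : Fin (n + 1) → ℤˣ, F.Nonempty ∧ IsExposed ℝ (klein v ε) F ∧ F ≠ klein v ε

/-- Polytopes with integer vertices. -/
def IsIntPolytope (F : Set (Vec n)) : Prop :=
  ∃ S : Finset (Vec n), S.Nonempty ∧ (∀ x ∈ S, IsIntPt x) ∧ F = convexHull ℝ (S : Set (Vec n))

/-- The action of `GL(n+1, ℤ)` on `ℝ^{n+1}`. -/
noncomputable def actV (g : GL (Fin (n + 1)) ℤ) (x : Vec n) : Vec n :=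
  ((g : Matrix (Fin (n + 1)) (Fin (n + 1)) ℤ).map (Int.cast : ℤ → ℝ)).mulVec x

/-- Integer-linear congruence of subsets of `ℝ^{n+1}`. -/
def Congr (F F' : Set (Vec n)) : Prop := ∃ g : GL (Fin (n + 1)) ℤ, F' = actV g '' F

/-- Sum of the absolute values of the entries. -/
def l1 (M : Matrix (Fin (n + 1)) (Fin (n + 1)) ℤ) : ℕ := ∑ i, ∑ j, (M i j).natAbs

/-- The faces of the continued fraction of an integer matrix `M` with `n+1` distinct rational
eigenvalues (the continued fraction of its eigenlines); empty for all other `M`. -/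
def facesOf (M : Matrix (Fin (n + 1)) (Fin (n + 1)) ℤ) : Set (Set (Vec n)) :=
  {F | ∃ (e : Fin (n + 1) → ℚ) (v : Fin (n + 1) → Vec n), Function.Injective e ∧
    (∀ i, v i ≠ 0 ∧ (M.map (Int.cast : ℤ → ℝ)).mulVec (v i) = (e i : ℝ) • v i) ∧ IsFace v F}

/-- The number of faces congruent to `F` of the continued fractions of the matrices of
`A_{n+1}(m)`. -/
noncomputable def cntF (F : Set (Vec n)) (m : ℕ) : ℕ :=
  Set.ncard {p : Matrix (Fin (n + 1)) (Fin (n + 1)) ℤ × Set (Vec n) |
    l1 p.1 ≤ m ∧ p.2 ∈ facesOf p.1 ∧ Congr F p.2}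

/-- The number of all faces of the continued fractions of the matrices of `A_{n+1}(m)`. -/
noncomputable def cntAll (n : ℕ) (m : ℕ) : ℕ :=
  Set.ncard {p : Matrix (Fin (n + 1)) (Fin (n + 1)) ℤ × Set (Vec n) |
    l1 p.1 ≤ m ∧ p.2 ∈ facesOf p.1}

/-- `ν` is the Arnold frequency of `F`. -/
def IsArnoldFreq (F : Set (Vec n)) (ν : ℝ) : Prop :=
  Tendsto (fun m : ℕ => (cntF F m : ℝ) / (cntAll n m : ℝ)) atTop (𝓝 ν)

/-- The points `(p i, 1)` of the affine hyperplane `π = {x_{n+1} = 1}`. -/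
def liftP (p : Fin (n + 1) → Fin n → ℝ) (i : Fin (n + 1)) : Vec n :=
  Fin.snoc (α := fun _ => ℝ) (p i) 1

/-- The determinant of the matrix with rows `(p i, 1)`; it is `n!` times the oriented volume of
the simplex with vertices `(p i, 1)` in `π`. -/
noncomputable def detP (p : Fin (n + 1) → Fin n → ℝ) : ℝ :=
  Matrix.det (Matrix.of (liftP p))

/-- The Moebius measure of the set `CF_n(F)` of continued fractions having `F` as a face, in the
chart of the affine hyperplane `π`. -/
noncomputable def moebius (F : Set (Vec n)) : ℝ≥0∞ :=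
  ∫⁻ p in {p : Fin (n + 1) → Fin n → ℝ | detP p ≠ 0 ∧ IsFace (liftP p) F},
    ENNReal.ofReal ((|detP p / (n.factorial : ℝ)| ^ (n + 1))⁻¹)

/-- The stabiliser of `F` in `GL(n+1, ℤ)`. -/
def stabF (F : Set (Vec n)) : Set (GL (Fin (n + 1)) ℤ) := {g | actV g '' F = F}

end General

end KF
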