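import Mathlib
import Pool.Agent.H22.KF.Defs

/-!
# MP_3fd637_nt : the group `GL(3, ℝ)` as a locally compact second countable group
-/

open MeasureTheory Filter Topology
open scoped ENNReal

namespace KF

abbrev V3 := Fin 3 → ℝ
abbrev VZ := Fin 3 → ℤ
abbrev MR := Matrix (Fin 3) (Fin 3) ℝ
abbrev MZ := Matrix (Fin 3) (Fin 3) ℤ
abbrev GR := GL (Fin 3) ℝ
abbrev GZ := GL (Fin 3) ℤ

theorem isEmbedding_coe : IsEmbedding (fun g : GR => (g : MR)) := by
  refine Units.isEmbedding_val_mk' (f := fun A : MR => A⁻¹) ?_ ?_
  · intro A hA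
    have hd : A.det ≠ 0 := by
      have := (Matrix.isUnit_iff_isUnit_det A).1 hA
      exact this.ne_zero
    have : ContinuousAt (fun A : MR => A⁻¹) A := by
      have h1 : (fun A : MR => A⁻¹) = fun A : MR => Ring.inverse A.det • A.adjugate := by
        funext B; exact Matrix.inv_def B
      rw [h1]
      have h2 : (fun A : MR => Ring.inverse A.det • A.adjugate)
          = fun A : MR => (A.det)⁻¹ • A.adjugate := by
        funext B; rw [Ring.inverse_eq_inv']
      rw [h2]
      have hc1 : Continuous (fun A : MR => A.det) := Continuous.matrix_det continuous_id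
      have hc2 : Continuous (fun A : MR => A.adjugate) := Continuous.matrix_adjugate continuous_id
      exact (hc1.continuousAt.inv₀ hd).smul hc2.continuousAt
    exact this.continuousWithinAt
  · intro u
    simp

/-- the entries of an invertible matrix, as a point of the measure space `Fin 3 → Fin 3 → ℝ` -/
def ent (g : GR) : Fin 3 → V3 := fun i j => (g : MR) i j

theorem isOpenEmbedding_ent : IsOpenEmbedding ent := by
  have h : IsEmbedding ent := isEmbedding_coe
  refine ⟨h, ?_⟩
  have hr : Set.range ent = {x : Fin 3 → V3 | Matrix.det (Matrix.of x) ≠ 0} := by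
    ext x
    constructor
    · rintro ⟨g, rfl⟩
      have : Matrix.of (ent g) = (g : MR) := rfl
      rw [Set.mem_ofPred_eq, this]
      exact (Matrix.isUnit_iff_isUnit_det _).1 g.isUnit |>.ne_zero
    · intro hx
      exact ⟨Matrix.GeneralLinearGroup.mkOfDetNeZero (Matrix.of x) hx, rfl⟩
  rw [hr]
  have hc : Continuous (fun x : Fin 3 → V3 => Matrix.det (Matrix.of x)) := by
    apply Continuous.matrix_det
    exact continuous_id
  exact isOpen_ne_fun hc continuous_const

instance : LocallyCompactSpace GR := isOpenEmbedding_ent.locallyCompactSpace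
instance : SecondCountableTopology GR := isOpenEmbedding_ent.isEmbedding.secondCountableTopology
instance : PolishSpace GR := by
  have : PolishSpace (Set.range ent) := isOpenEmbedding_ent.isOpen_range.polishSpace
  exact (isOpenEmbedding_ent.isEmbedding.toHomeomorph).isClosedEmbedding.polishSpace
instance : MeasurableSpace GR := borel GR
instance : BorelSpace GR := ⟨rfl⟩

/-- determinant of an element of `GL(3, ℝ)` as a real number -/
noncomputable def detR (g : GR) : ℝ := Matrix.det (g : MR)

/-- the Haar measure `|det g|^{-3} dg` of `GL(3, ℝ)` -/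
noncomputable def haarG : Measure GR :=
  (Measure.comap ent (volume : Measure (Fin 3 → V3))).withDensity
    (fun g => ENNReal.ofReal ((|detR g| ^ 3)⁻¹))

/-- the inclusion `GL(3, ℤ) → GL(3, ℝ)` -/
noncomputable def toR : GZ →* GR := Matrix.GeneralLinearGroup.map (Int.castRingHom ℝ)

theorem toR_apply (g : GZ) (i j : Fin 3) : (toR g : MR) i j = (((g : MZ) i j : ℤ) : ℝ) := rfl

/-- the diagonal matrix with entries `exp (s i)` -/
noncomputable def dg (s : Fin 3 → ℝ) : GR where
  val := Matrix.diagonal (fun i => Real.exp (s i))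
  inv := Matrix.diagonal (fun i => Real.exp (-s i))
  val_inv := by
    rw [Matrix.diagonal_mul_diagonal, ← Matrix.diagonal_one]
    congr 1
    funext i
    rw [← Real.exp_add]; simp
  inv_val := by
    rw [Matrix.diagonal_mul_diagonal, ← Matrix.diagonal_one]
    congr 1
    funext i
    rw [← Real.exp_add]; simp

theorem dg_coe (s : Fin 3 → ℝ) : (dg s : MR) = Matrix.diagonal (fun i => Real.exp (s i)) := rfl

theorem dg_add (s t : Fin 3 → ℝ) : dg (s + t) = dg s * dg t := by
  apply Units.ext
  rw [Units.val_mul, dg_coe, dg_coe, dg_coe, Matrix.diagonal_mul_diagonal]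
  congr 1
  funext i
  rw [← Real.exp_add]; rfl

theorem dg_zero : dg 0 = 1 := by
  apply Units.ext
  rw [dg_coe, Units.val_one, ← Matrix.diagonal_one]
  congr 1
  funext i
  simp

theorem dg_mul_apply (s : Fin 3 → ℝ) (g : GR) (i j : Fin 3) :
    ((dg s * g : GR) : MR) i j = Real.exp (s i) * (g : MR) i j := by
  rw [Units.val_mul, dg_coe, Matrix.diagonal_mul]

theorem continuous_dg : Continuous dg := by
  rw [isEmbedding_coe.continuous_iff]
  refine continuous_matrix ?_
  intro i j
  simp only [Function.comp, dg_coe, Matrix.diagonal_apply]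
  split_ifs
  · exact Real.continuous_exp.comp (continuous_apply i)
  · exact continuous_const

/-- the matrix `diag(…, 3 at i, …)` (the other diagonal entries are `1`) -/
noncomputable def ai (i : Fin 3) : GR := dg (Pi.single i (Real.log 3))

/-- the scalar matrix `2^k` -/
noncomputable def scal (k : ℤ) : GR := dg (fun _ => (k : ℝ) * Real.log 2)

theorem scal_comm (k : ℤ) (g : GR) : scal k * g = g * scal k := by
  apply Units.ext
  ext i j
  rw [scal, dg_mul_apply, Units.val_mul, dg_coe, Matrix.mul_diagonal]
  ring

theorem scal_add (k l : ℤ) : scal (k + l) = scal k * scal l := by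
  rw [scal, scal, scal, ← dg_add]
  congr 1
  funext i
  simp only [Pi.add_apply]
  push_cast
  ring

theorem scal_zero : scal 0 = 1 := by
  rw [scal, ← dg_zero]
  congr 1
  funext i
  simp

/-- the discrete group generated by `GL(3, ℤ)` and the scalar `2` -/
noncomputable def Gam : Subgroup GR where
  carrier := {g | ∃ (γ : GZ) (k : ℤ), g = toR γ * scal k}
  mul_mem' := by
    rintro _ _ ⟨γ, k, rfl⟩ ⟨γ', k', rfl⟩
    refine ⟨γ * γ', k + k', ?_⟩
    rw [map_mul, scal_add, mul_assoc, mul_assoc, ← mul_assoc (scal k), scal_comm k (toR γ'),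
      mul_assoc]
  one_mem' := ⟨1, 0, by rw [map_one, scal_zero, one_mul]⟩
  inv_mem' := by
    rintro _ ⟨γ, k, rfl⟩
    refine ⟨γ⁻¹, -k, ?_⟩
    rw [mul_inv_rev, map_inv]
    have : (scal k)⁻¹ = scal (-k) := by
      rw [inv_eq_iff_mul_eq_one, ← scal_add, add_neg_cancel, scal_zero]
    rw [this, scal_comm]

end KF
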