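import Mathlib
import Pool.Agent.H22.KF.Defs
import Pool.Agent.H22.KF.Group

/-!
# MP_3fd637_nt : frames (integer matrices with ordered distinct integer eigenvalues and primitive
integer eigenvectors), the counting functions and the measures `rho m`.
-/

open MeasureTheory Filter Topology
open scoped ENNReal

namespace KF

/-- Euclidean norm of a real vector -/
noncomputable def nrm (x : V3) : ℝ := Real.sqrt (∑ i, x i ^ 2)

/-- cast of an integer vector -/
def cst (x : VZ) : V3 := fun i => (x i : ℝ)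

/-- Euclidean norm of an integer vector -/
noncomputable def nz (x : VZ) : ℝ := nrm (cst x)

/-- primitive integer vectors -/
def Prim (x : VZ) : Prop := ∀ d : ℤ, (∀ i, d ∣ x i) → IsUnit d

/-- dot product of integer vectors -/
def dotZ (x y : VZ) : ℤ := x 0 * y 0 + x 1 * y 1 + x 2 * y 2

/-- cross product of integer vectors -/
def crossZ (x y : VZ) : VZ :=
  ![x 1 * y 2 - x 2 * y 1, x 2 * y 0 - x 0 * y 2, x 0 * y 1 - x 1 * y 0]

/-- gcd of the coordinates -/
def gcd3 (x : VZ) : ℤ := (Int.gcd (Int.gcd (x 0) (x 1)) (x 2) : ℕ)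

/-- the primitive normal vector of two integer vectors -/
def pn (x y : VZ) : VZ := fun i => crossZ x y i / gcd3 (crossZ x y)

/-- a frame: an integer matrix with ordered distinct integer eigenvalues `ev i` and primitive
integer eigenvectors `v i` -/
structure Frame where
  M : MZ
  ev : Fin 3 → ℤ
  v : Fin 3 → VZ
  inj : Function.Injective ev
  eig : ∀ i, M.mulVec (v i) = ev i • v i
  prim : ∀ i, Prim (v i)

namespace Frame

/-- the real matrix with rows `v i` -/
def Rm (φ : Frame) : MR := Matrix.of (fun i j => ((φ.v i j : ℤ) : ℝ))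

theorem v_ne (φ : Frame) (i : Fin 3) : φ.v i ≠ 0 := by
  intro h
  have h2 := φ.prim i 2 (by intro j; rw [h]; simp)
  rw [Int.isUnit_iff] at h2
  omega

theorem det_ne (φ : Frame) : Matrix.det φ.Rm ≠ 0 := by
  set MM : MR := φ.M.map (Int.cast : ℤ → ℝ) with hMM
  have hv : ∀ i, MM.mulVec (fun j => ((φ.v i j : ℤ) : ℝ))
      = (φ.ev i : ℝ) • (fun j => ((φ.v i j : ℤ) : ℝ)) := by
    intro i
    funext j
    have h := congrFun (φ.eig i) j
    simp only [Matrix.mulVec, dotProduct, Pi.smul_apply, smul_eq_mul] at h ⊢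
    rw [hMM]
    simp only [Matrix.map_apply]
    exact_mod_cast h
  have hli : LinearIndependent ℝ (fun i : Fin 3 => (fun j => ((φ.v i j : ℤ) : ℝ) : V3)) := by
    refine Module.End.eigenvectors_linearIndependent' (Matrix.toLin' MM)
      (fun i => (φ.ev i : ℝ)) ?_ _ ?_
    · intro i j hij
      have hij' : (φ.ev i : ℝ) = (φ.ev j : ℝ) := hij
      exact φ.inj (by exact_mod_cast hij')
    · intro i
      rw [Module.End.hasEigenvector_iff, Module.End.mem_eigenspace_iff]
      refine ⟨?_, ?_⟩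
      · rw [Matrix.toLin'_apply]; exact hv i
      · intro h0
        apply φ.v_ne i
        funext j
        have := congrFun h0 j
        simpa using this
  intro h0
  have := Matrix.linearIndependent_rows_iff_isUnit (A := φ.Rm) |>.1 hli
  rw [Matrix.isUnit_iff_isUnit_det, h0] at this
  simp at this

/-- the frame as an element of `GL(3, ℝ)` (rows `v i`) -/
noncomputable def R (φ : Frame) : GR := Matrix.GeneralLinearGroup.mkOfDetNeZero φ.Rm φ.det_ne

theorem R_apply (φ : Frame) (i j : Fin 3) : (φ.R : MR) i j = ((φ.v i j : ℤ) : ℝ) := rfl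

/-- primitive normal vector of `v 0`, `v 1` -/
def w (φ : Frame) : VZ := pn (φ.v 0) (φ.v 1)

/-- differences of eigenvalues `x₀₁, x₁₂, x₀₂` -/
def x01 (φ : Frame) : ℤ := φ.ev 1 - φ.ev 0
def x12 (φ : Frame) : ℤ := φ.ev 2 - φ.ev 1
def x02 (φ : Frame) : ℤ := φ.ev 2 - φ.ev 0

/-- product of the absolute values of the gaps -/
def gaps (φ : Frame) : ℝ := |(φ.x01 : ℝ)| * |(φ.x12 : ℝ)| * |(φ.x02 : ℝ)|

/-- the angle condition -/
def Ang (c : ℝ) (φ : Frame) : Prop := c * (nz (φ.v 0) * nz (φ.v 1) * nz (φ.v 2)) ≤ |Matrix.det φ.Rm|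

/-- eigenvalues bounded by `m` -/
def EvLe (φ : Frame) (m : ℕ) : Prop := ∀ i, |φ.ev i| ≤ (m : ℤ)

/-- reordering -/
def perm (σ : Equiv.Perm (Fin 3)) (φ : Frame) : Frame where
  M := φ.M
  ev := fun i => φ.ev (σ i)
  v := fun i => φ.v (σ i)
  inj := φ.inj.comp σ.injective
  eig := fun i => φ.eig (σ i)
  prim := fun i => φ.prim (σ i)

end Frame

/-- image of an integer vector under `GL(3, ℤ)` -/
def mulZ (γ : GZ) (x : VZ) : VZ := (γ : MZ).mulVec x

theorem mulZ_mul (γ γ' : GZ) (x : VZ) : mulZ (γ * γ') x = mulZ γ (mulZ γ' x) := by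
  simp [mulZ, Matrix.mulVec_mulVec]

theorem mulZ_one (x : VZ) : mulZ 1 x = x := by simp [mulZ]

theorem mulZ_smul (γ : GZ) (k : ℤ) (x : VZ) : mulZ γ (k • x) = k • mulZ γ x := by
  unfold mulZ
  exact Matrix.mulVec_smul _ _ _

theorem prim_mulZ (γ : GZ) {x : VZ} (hx : Prim x) : Prim (mulZ γ x) := by
  intro d hd
  apply hx d
  intro i
  have h1 : x = mulZ γ⁻¹ (mulZ γ x) := by rw [← mulZ_mul, inv_mul_cancel, mulZ_one]
  rw [h1]
  simp only [mulZ, Matrix.mulVec, dotProduct]
  exact Finset.dvd_sum (fun j _ => Dvd.dvd.mul_left (hd j) _)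

/-- conjugation of an integer matrix -/
def conjZ (γ : GZ) (M : MZ) : MZ := (γ : MZ) * M * ((γ⁻¹ : GZ) : MZ)

theorem conjZ_mul (γ γ' : GZ) (M : MZ) : conjZ (γ * γ') M = conjZ γ (conjZ γ' M) := by
  simp [conjZ, mul_inv_rev, Matrix.mul_assoc]

theorem conjZ_one (M : MZ) : conjZ 1 M = M := by simp [conjZ]

/-- the action of `GL(3, ℤ)` on frames -/
def Frame.act (γ : GZ) (φ : Frame) : Frame where
  M := conjZ γ φ.M
  ev := φ.ev
  v := fun i => mulZ γ (φ.v i)
  inj := φ.inj
  eig := fun i => by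
    have h1 : (conjZ γ φ.M).mulVec (mulZ γ (φ.v i)) = mulZ γ (φ.M.mulVec (φ.v i)) := by
      simp only [conjZ, mulZ, Matrix.mulVec_mulVec]
      rw [Matrix.mul_assoc]
      congr 1
      rw [← Units.val_mul, inv_mul_cancel, Units.val_one, Matrix.mul_one]
    rw [h1, φ.eig i, mulZ_smul]
  prim := fun i => prim_mulZ γ (φ.prim i)

/-- the number of `γ` with `|γ M γ⁻¹|₁ ≤ m` -/
noncomputable def bm (m : ℕ) (M : MZ) : ℝ≥0∞ :=
  ∑' γ : GZ, if l1 (conjZ γ M) ≤ m then 1 else 0

/-- the orbit measure of a frame: image of Lebesgue measure under `s ↦ dg s * R` -/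
noncomputable def orb (φ : Frame) : Measure GR :=
  (volume : Measure (Fin 3 → ℝ)).map (fun s => dg s * φ.R)

/-- the measure `ρ_m` -/
noncomputable def rho (m : ℕ) : Measure GR := Measure.sum (fun φ : Frame => bm m φ.M • orb φ)

/-- the normalisation `m^6 (log m)^4` -/
noncomputable def Zm (m : ℕ) : ℝ := (m : ℝ) ^ 6 * Real.log m ^ 4

/-- the logarithmic length of the part of the half line of `x` inside `O` -/
noncomputable def theta (O : Set V3) (x : VZ) : ℝ≥0∞ :=
  volume {s : ℝ | (fun j => Real.exp s * (x j : ℝ)) ∈ O}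

/-- the upper triangular matrix with diagonal `l` -/
def tri (l : Fin 3 → ℤ) (a c b : ℤ) : MZ := !![l 0, a, b; 0, l 1, c; 0, 0, l 2]

end KF
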