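import Mathlib
import Pool.Agent.H22.KF.Defs
import Pool.Agent.H22.KF.Group
import Pool.Agent.H22.KF.Frames

/-!
# MP_3fd637_nt : statements of all modules
-/

open MeasureTheory Filter Topology
open scoped ENNReal CompactlySupported

namespace KF

/-! ## A. Frames -/

/-- product of the gaps of three eigenvalues -/
def gp (l : Fin 3 → ℤ) : ℝ :=
  |((l 1 - l 0 : ℤ) : ℝ)| * |((l 2 - l 1 : ℤ) : ℝ)| * |((l 2 - l 0 : ℤ) : ℝ)|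

/-- FRM: an integer matrix with distinct rational eigenvalues has a frame -/
def T_FRM : Prop :=
  ∀ (M : MZ) (e : Fin 3 → ℚ) (v : Fin 3 → V3), Function.Injective e →
    (∀ i, v i ≠ 0 ∧ (M.map (Int.cast : ℤ → ℝ)).mulVec (v i) = (e i : ℝ) • v i) →
    ∃ φ : Frame, φ.M = M ∧ (∀ i, e i = (φ.ev i : ℚ)) ∧
      ∀ i, ∃ c : ℝ, c ≠ 0 ∧ v i = c • cst (φ.v i)

/-- SGN: two frames of the same matrix differ by a permutation and signs -/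
def T_SGN : Prop :=
  ∀ φ ψ : Frame, φ.M = ψ.M → ∃ σ : Equiv.Perm (Fin 3), ∀ i, ψ.ev i = φ.ev (σ i) ∧
    (ψ.v i = φ.v (σ i) ∨ ψ.v i = -φ.v (σ i))

/-- F48: every matrix with a frame has exactly 48 frames -/
def T_F48 : Prop :=
  ∀ φ : Frame, {ψ : Frame | ψ.M = φ.M}.Finite ∧ {ψ : Frame | ψ.M = φ.M}.ncard = 48

/-- AB: adapted bases of integer flags -/
def T_AB : Prop :=
  ∀ x w : VZ, Prim x → Prim w → dotZ w x = 0 →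
    ∃ γ : GZ, mulZ γ x = ![1, 0, 0] ∧ (fun j => (γ : MZ) 2 j) = w

/-- W0: the primitive normal vector `w` of `v 0, v 1` -/
def T_W0 : Prop :=
  ∀ φ : Frame, Prim φ.w ∧ dotZ φ.w (φ.v 0) = 0 ∧ dotZ φ.w (φ.v 1) = 0 ∧
    0 < gcd3 (crossZ (φ.v 0) (φ.v 1)) ∧
    crossZ (φ.v 0) (φ.v 1) = gcd3 (crossZ (φ.v 0) (φ.v 1)) • φ.w ∧
    φ.M.transpose.mulVec φ.w = φ.ev 2 • φ.w ∧
    gcd3 (crossZ (φ.v 0) (φ.v 1)) ∣ φ.x01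

/-- IDX: index of two primitive eigenvectors divides the difference of the eigenvalues -/
def T_IDX : Prop :=
  ∀ (A : MZ) (x y : VZ) (α β : ℤ), Prim x → Prim y → A.mulVec x = α • x → A.mulVec y = β • y →
    gcd3 (crossZ x y) ∣ β - α

/-- TR: reduced triangular form -/
def T_TR : Prop :=
  ∀ φ : Frame, ∃ (γ : GZ) (a c b : ℤ), conjZ γ φ.M = tri φ.ev a c b ∧
    (0 ≤ a ∧ a < |φ.x01|) ∧ (0 ≤ c ∧ c < |φ.x12|) ∧ (0 ≤ b ∧ b < |φ.x02|) ∧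
    mulZ γ (φ.v 0) = ![1, 0, 0] ∧ (fun j => (γ : MZ) 2 j) = φ.w

/-- TR2: a `γ` adapted to the flag of `φ` makes `φ.M` triangular -/
def T_TR2 : Prop :=
  ∀ (φ : Frame) (γ : GZ), mulZ γ (φ.v 0) = ![1, 0, 0] → (fun j => (γ : MZ) 2 j) = φ.w →
    ∃ a c b : ℤ, conjZ γ φ.M = tri φ.ev a c b

/-- BM: sets of `γ` with bounded quotients are small -/
def T_BM : Prop :=
  ∀ (K : ℕ) (s : Finset GZ),
    ((∀ γ ∈ s, ∀ γ' ∈ s, ∀ i j, |((γ⁻¹ * γ' : GZ) : MZ) i j| ≤ (K : ℤ)) ∨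
     (∀ γ ∈ s, ∀ γ' ∈ s, ∀ i j, |((γ * γ'⁻¹ : GZ) : MZ) i j| ≤ (K : ℤ))) →
    s.card ≤ (2 * K + 1) ^ 9

/-- EV1: primitive eigenvectors of small matrices are small -/
def T_EV1 : Prop :=
  ∃ C : ℝ, ∀ (m : ℝ) (φ : Frame), 1 ≤ m → (∀ i j, |((φ.M i j : ℤ) : ℝ)| ≤ m) →
    (∀ i, nz (φ.v i) ≤ C * m ^ 2) ∧ nz φ.w ≤ C * m ^ 2

/-- EV2: bounded angles and bounded eigenvalues give a bounded matrix -/
def T_EV2 : Prop :=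
  ∀ c : ℝ, 0 < c → ∃ C : ℝ, ∀ (m : ℕ) (φ : Frame), 1 ≤ m → φ.Ang c → φ.EvLe m →
    ∀ i j, |((φ.M i j : ℤ) : ℝ)| ≤ C * m

/-- EV3: eigenvalues are bounded by the norm -/
def T_EV3 : Prop :=
  ∀ (m : ℕ) (φ : Frame) (γ : GZ), l1 (conjZ γ φ.M) ≤ m → φ.EvLe m

/-- GO: a good ordering exists -/
def T_GO : Prop :=
  ∀ c : ℝ, 0 < c → ∃ C : ℝ, ∀ (m : ℕ) (φ : Frame), 1 ≤ m → φ.Ang c → φ.EvLe m →
    ∃ σ : Equiv.Perm (Fin 3),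
      nz ((φ.perm σ).v 0) ^ 2 ≤ C * m * nz (φ.perm σ).w ∧
      nz (φ.perm σ).w ^ 2 ≤ C * m * nz ((φ.perm σ).v 0)

/-! ## B. Counting -/

/-- BX: frames with given eigenvalues, bounded angles and heights in a unit log box -/
def T_BX : Prop :=
  ∀ c : ℝ, 0 < c → ∃ C : ℝ, ∀ (l : Fin 3 → ℤ) (p q : ℕ) (s : Finset Frame),
    (∀ φ ∈ s, φ.ev = l ∧ φ.Ang c ∧
      (Real.exp p ≤ nz (φ.v 0) ∧ nz (φ.v 0) < Real.exp (p + 1)) ∧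
      (Real.exp q ≤ nz φ.w ∧ nz φ.w < Real.exp (q + 1))) →
    (s.card : ℝ) ≤ C * gp l

/-- BXC: the core of BX: adapted `γ`, `γ'` for the same triangular matrix and the same box have
bounded quotient -/
def T_BXC : Prop :=
  ∀ c : ℝ, 0 < c → ∃ K : ℕ, ∀ (φ ψ : Frame) (γ γ' : GZ) (a c' b : ℤ) (p q : ℕ),
    conjZ γ φ.M = tri φ.ev a c' b → conjZ γ' ψ.M = tri ψ.ev a c' b → φ.ev = ψ.ev →
    mulZ γ (φ.v 0) = ![1, 0, 0] → mulZ γ' (ψ.v 0) = ![1, 0, 0] →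
    (fun j => (γ : MZ) 2 j) = φ.w → (fun j => (γ' : MZ) 2 j) = ψ.w → φ.Ang c → ψ.Ang c →
    (Real.exp p ≤ nz (φ.v 0) ∧ nz (φ.v 0) < Real.exp (p + 1)) →
    (Real.exp q ≤ nz φ.w ∧ nz φ.w < Real.exp (q + 1)) →
    (Real.exp p ≤ nz (ψ.v 0) ∧ nz (ψ.v 0) < Real.exp (p + 1)) →
    (Real.exp q ≤ nz ψ.w ∧ nz ψ.w < Real.exp (q + 1)) →
    ∀ i j, |((γ⁻¹ * γ' : GZ) : MZ) i j| ≤ (K : ℤ)

/-- L2: frames with given eigenvalues and bounded angles -/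
def T_L2 : Prop :=
  ∀ c : ℝ, 0 < c → ∃ C : ℝ, ∀ (m : ℕ) (l : Fin 3 → ℤ) (s : Finset Frame), 2 ≤ m →
    (∀ φ ∈ s, φ.ev = l ∧ φ.Ang c ∧ φ.EvLe m) →
    (s.card : ℝ) ≤ C * Real.log m ^ 2 * gp l

/-- L1: number of small conjugates -/
def T_L1 : Prop :=
  ∃ C : ℝ, ∀ (m : ℕ) (φ : Frame) (s : Finset GZ), 2 ≤ m →
    (∀ γ ∈ s, l1 (conjZ γ φ.M) ≤ m) →
    (s.card : ℝ) ≤ C * Real.log m ^ 2 * m ^ 3 / gp φ.ev

/-- S1: upper bound for the total mass of frames with bounded angles -/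
def T_S1 : Prop :=
  ∀ c : ℝ, 0 < c → ∃ C : ℝ, ∀ m : ℕ, 2 ≤ m →
    ∑' φ : Frame, Set.indicator {φ : Frame | φ.Ang c} (fun φ => bm m φ.M) φ
      ≤ ENNReal.ofReal (C * Zm m)

/-- parameters of an upper triangular integer matrix -/
structure Tup where
  l : Fin 3 → ℤ
  a : ℤ
  c : ℤ
  b : ℤ

noncomputable def Tup.u01 (t : Tup) : ℝ := (t.a : ℝ) / ((t.l 1 - t.l 0 : ℤ) : ℝ)
noncomputable def Tup.u12 (t : Tup) : ℝ := (t.c : ℝ) / ((t.l 2 - t.l 1 : ℤ) : ℝ)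
noncomputable def Tup.u02 (t : Tup) : ℝ := ((t.b : ℝ) + t.u12 * t.a) / ((t.l 2 - t.l 0 : ℤ) : ℝ)
def Tup.Ok (t : Tup) (m : ℕ) : Prop := Function.Injective t.l ∧ ∀ i, |t.l i| ≤ (m : ℤ)
def Tup.Red (t : Tup) : Prop :=
  (0 ≤ t.a ∧ t.a < |t.l 1 - t.l 0|) ∧ (0 ≤ t.c ∧ t.c < |t.l 2 - t.l 1|) ∧
  (0 ≤ t.b ∧ t.b < |t.l 2 - t.l 0|)

/-- PC: pair count for triangular matrices (pure arithmetic) -/
def T_PC : Prop :=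
  ∀ κ : ℝ, 0 < κ → ∃ C : ℝ, ∀ (m : ℕ) (d1 d2 d3 : ℝ) (s : Finset (Tup × Tup)), 2 ≤ m →
    0 < d1 → 0 < d2 → 0 < d3 → κ ≤ d1 * m → κ ≤ d2 * m → κ * Real.log m ≤ d3 * (m : ℝ) ^ 2 →
    (∀ t ∈ s, t.1.Ok m ∧ t.1.Red ∧ t.2.Ok m ∧
      |t.2.u01 - t.1.u01| ≤ d1 ∧ |t.2.u12 - t.1.u12| ≤ d2 ∧
      |t.2.u02 - t.1.u02 - t.1.u01 * (t.2.u12 - t.1.u12)| ≤ d3) →
    (s.card : ℝ) ≤ C * (m : ℝ) ^ 12 * (d1 * d2 * d3)

/-- SM: second moment over flags in a unit log box -/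
def T_SM : Prop :=
  ∀ c C0 : ℝ, 0 < c → 0 < C0 → ∃ C : ℝ, ∀ (m p q : ℕ) (s : Finset (Frame × Frame)), 2 ≤ m →
    Real.exp (2 * p) ≤ C0 * m * Real.exp q → Real.exp (2 * q) ≤ C0 * m * Real.exp p →
    Real.exp (p + q) * Real.log m ≤ C0 * (m : ℝ) ^ 2 →
    (∀ t ∈ s, t.1.Ang c ∧ t.2.Ang c ∧ t.1.EvLe m ∧ t.2.EvLe m ∧
      t.1.v 0 = t.2.v 0 ∧ t.1.w = t.2.w ∧
      (Real.exp p ≤ nz (t.1.v 0) ∧ nz (t.1.v 0) < Real.exp (p + 1)) ∧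
      (Real.exp q ≤ nz t.1.w ∧ nz t.1.w < Real.exp (q + 1))) →
    (s.card : ℝ) ≤ C * (m : ℝ) ^ 12 / Real.exp (2 * (p + q))

/-- CL: integer points of a plane -/
def T_CL : Prop :=
  ∃ C : ℝ, ∀ (w : VZ) (L : ℝ) (s : Finset VZ), Prim w → nz w ≤ L →
    (∀ v ∈ s, nz v ≤ L ∧ dotZ w v = 0) → (s.card : ℝ) ≤ C * L ^ 2 / nz w

/-- CQ: weighted flag sum over a cube -/
def T_CQ : Prop :=
  ∀ r R : ℝ, 0 < r → r ≤ R → ∃ C : ℝ, ∀ s : ℝ, 0 < s → 8 * s ≤ r → ∃ C' : ℝ,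
    ∀ (q : V3) (X : ℝ) (t : Finset (VZ × VZ)), r ≤ ‖q‖ → ‖q‖ ≤ R → 2 ≤ X →
      (∀ z ∈ t, Prim z.1 ∧ Prim z.2 ∧ dotZ z.2 z.1 = 0 ∧ nz z.1 ≤ X ∧ nz z.2 ≤ X) →
      ∑ z ∈ t, (theta (Metric.ball q s) z.1).toReal / (nz z.1 ^ 2 * nz z.2 ^ 2)
        ≤ C * s ^ 3 * Real.log X ^ 2 + C' * Real.log X

/-- BULK: Cauchy-Schwarz over flags below the strip -/
def T_BULK : Prop :=
  ∀ c C0 : ℝ, 0 < c → 0 < C0 → ∃ C : ℝ, ∀ (m : ℕ) (s : Finset Frame) (t : VZ → ℝ), 2 ≤ m →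
    (∀ x, 0 ≤ t x) →
    (∀ φ ∈ s, φ.Ang c ∧ φ.EvLe m ∧ nz (φ.v 0) ^ 2 ≤ C0 * m * nz φ.w ∧
      nz φ.w ^ 2 ≤ C0 * m * nz (φ.v 0) ∧ nz (φ.v 0) * nz φ.w * Real.log m ≤ (m : ℝ) ^ 2) →
    ∑ φ ∈ s, t (φ.v 0) ≤ C * (m : ℝ) ^ 6 * Real.log m *
      Real.sqrt (∑ z ∈ s.image (fun φ => (φ.v 0, φ.w)), t z.1 ^ 2 / (nz z.1 ^ 2 * nz z.2 ^ 2))

/-- STRIP: the flags above the bulk are negligible -/
def T_STRIP : Prop :=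
  ∀ c C0 η : ℝ, 0 < c → 0 < C0 → 0 < η → ∀ᶠ m : ℕ in atTop, ∀ s : Finset Frame,
    (∀ φ ∈ s, φ.Ang c ∧ φ.EvLe m ∧ nz (φ.v 0) ^ 2 ≤ C0 * m * nz φ.w ∧
      nz φ.w ^ 2 ≤ C0 * m * nz (φ.v 0) ∧ (m : ℝ) ^ 2 < nz (φ.v 0) * nz φ.w * Real.log m) →
    (s.card : ℝ) ≤ η * (m : ℝ) ^ 6 * Real.log m ^ 2

/-- S5a: frames with a small gap -/
def T_S5a : Prop :=
  ∀ c : ℝ, 0 < c → ∃ C : ℝ, ∀ ε : ℝ, 0 < ε → ε ≤ 1 → ∀ᶠ m : ℕ in atTop,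
    ∑' φ : Frame, Set.indicator {φ : Frame | φ.Ang c ∧
        (|(φ.x01 : ℝ)| < ε * m ∨ |(φ.x12 : ℝ)| < ε * m ∨ |(φ.x02 : ℝ)| < ε * m)}
      (fun φ => bm m φ.M) φ ≤ ENNReal.ofReal (C * ε * Zm m)

/-- S5b: number of frames with bounded eigenvalues whose three lines meet a small union of
cubes -/
def T_S5b : Prop :=
  ∀ c r R η : ℝ, 0 < c → 0 < r → r ≤ R → 0 < η → ∃ δ s0 : ℝ, 0 < δ ∧ 0 < s0 ∧
    ∀ (s : ℝ) (Q : Finset V3), 0 < s → s ≤ s0 → (∀ q ∈ Q, r ≤ ‖q‖ ∧ ‖q‖ ≤ R) →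
      (Q.card : ℝ) * s ^ 3 ≤ δ →
      ∀ᶠ m : ℕ in atTop,
        ∑' φ : Frame, Set.indicator {φ : Frame | φ.Ang c ∧ φ.EvLe m}
          (fun φ => ∏ i, theta (⋃ q ∈ Q, Metric.ball q s) (φ.v i)) φ
          ≤ ENNReal.ofReal (η * ((m : ℝ) ^ 6 * Real.log m ^ 2))

/-- S5: mass of the frames whose three lines meet a small union of cubes -/
def T_S5 : Prop :=
  ∀ c r R η : ℝ, 0 < c → 0 < r → r ≤ R → 0 < η → ∃ δ s0 : ℝ, 0 < δ ∧ 0 < s0 ∧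
    ∀ (s : ℝ) (Q : Finset V3), 0 < s → s ≤ s0 → (∀ q ∈ Q, r ≤ ‖q‖ ∧ ‖q‖ ≤ R) →
      (Q.card : ℝ) * s ^ 3 ≤ δ →
      ∀ᶠ m : ℕ in atTop,
        ∑' φ : Frame, Set.indicator {φ : Frame | φ.Ang c}
          (fun φ => bm m φ.M * ∏ i, theta (⋃ q ∈ Q, Metric.ball q s) (φ.v i)) φ
          ≤ ENNReal.ofReal (η * Zm m)

/-- FL: lower bound of the flag sum -/
def T_FL : Prop :=
  ∃ c X0 : ℝ, 0 < c ∧ ∀ X : ℝ, X0 ≤ X → ∃ t : Finset (VZ × VZ),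
    (∀ z ∈ t, Prim z.1 ∧ Prim z.2 ∧ dotZ z.2 z.1 = 0 ∧ nz z.1 ≤ X ∧ nz z.2 ≤ X) ∧
    c * Real.log X ^ 2 ≤ ∑ z ∈ t, 1 / (nz z.1 ^ 2 * nz z.2 ^ 2)

/-- MC: many matrices with bounded angles -/
def T_MC : Prop :=
  ∃ c0 c : ℝ, 0 < c0 ∧ 0 < c ∧ ∀ᶠ m : ℕ in atTop, ∃ s : Finset Frame,
    (∀ φ ∈ s, l1 φ.M ≤ m ∧ φ.Ang c0) ∧ c * (m : ℝ) ^ 6 * Real.log m ^ 2 ≤ s.card

/-- S4: lower bound for the total mass of frames with bounded angles -/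
def T_S4 : Prop :=
  ∃ c0 c : ℝ, 0 < c0 ∧ 0 < c ∧ ∀ᶠ m : ℕ in atTop,
    ENNReal.ofReal (c * Zm m) ≤
      ∑' φ : Frame, Set.indicator {φ : Frame | φ.Ang c0} (fun φ => bm m φ.M) φ

/-! ## C. The measures `rho m` -/

def T_P3 : Prop :=
  ∀ K : Set GR, IsCompact K → ∃ C : ℝ, ∀ m : ℕ, 2 ≤ m → rho m K ≤ ENNReal.ofReal (C * Zm m)

def T_P4 : Prop :=
  ∃ (K : Set GR) (c : ℝ), IsCompact K ∧ 0 < c ∧
    ∀ᶠ m : ℕ in atTop, ENNReal.ofReal (c * Zm m) ≤ rho m K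

def T_P5 : Prop :=
  ∀ (K : Set GR) (E : Set V3), IsCompact K → IsCompact E → volume E = 0 → (0 : V3) ∉ E →
    ∀ η : ℝ, 0 < η → ∃ O : Set V3, IsOpen O ∧ E ⊆ O ∧
      ∀ᶠ m : ℕ in atTop, rho m (K ∩ {g | ∀ i, ent g i ∈ O}) ≤ ENNReal.ofReal (η * Zm m)

/-- INV: invariance of `rho m` -/
def T_INV : Prop :=
  ∀ m : ℕ, (∀ s : Fin 3 → ℝ, (rho m).map (fun g => dg s * g) = rho m) ∧
    (∀ γ : GZ, (rho m).map (fun g => g * toR γ) = rho m)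

/-! ## D. Ergodic theory -/

def T_HAAR : Prop :=
  haarG.IsMulLeftInvariant ∧ haarG.IsMulRightInvariant ∧ haarG.IsHaarMeasure

/-- DISC: `Gam` is discrete -/
def T_DISC : Prop := DiscreteTopology Gam ∧ Countable Gam ∧ IsClosed (Gam : Set GR)

/-- strict measurable fundamental domain -/
def IsFD (D : Set GR) : Prop :=
  MeasurableSet D ∧ ∀ g : GR, ∃! γ : Gam, g * (γ : GR) ∈ D

def T_FD : Prop := ∃ D : Set GR, IsFD D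

/-- COV: finite covolume -/
def T_COV : Prop :=
  ∃ D : Set GR, MeasurableSet D ∧ haarG D < ∞ ∧ ∀ g : GR, ∃ γ ∈ Gam, g * γ ∈ D

/-- ERG: ergodicity of `ai i` on `GR / Gam` -/
def T_ERG : Prop :=
  ∀ (i : Fin 3) (s : Set GR), MeasurableSet s → (∀ g : GR, ∀ γ ∈ Gam, (g * γ ∈ s ↔ g ∈ s)) →
    (∀ᵐ g ∂haarG, (ai i * g ∈ s ↔ g ∈ s)) → haarG s = 0 ∨ haarG sᶜ = 0

/-- periodisation -/
noncomputable def per (f : GR → ℝ) (g : GR) : ℝ := ∑' γ : Gam, f (g * (γ : GR))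

/-- ergodic averages -/
noncomputable def SN (f : GR → ℝ) (i : Fin 3) (N : ℕ) (g : GR) : ℝ :=
  (∑ n ∈ Finset.range N, per f (ai i ^ n * g)) / N

/-- UC: uniform continuity of periodisations (and basic facts) -/
def T_UC : Prop :=
  ∀ f : C_c(GR, ℝ), Continuous (per f) ∧ (∃ B : ℝ, ∀ g, |per f g| ≤ B) ∧
    (∀ g : GR, (Function.support (fun γ : Gam => f (g * (γ : GR)))).Finite) ∧
    (∀ g : GR, ∀ γ ∈ Gam, per f (g * γ) = per f g) ∧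
    ∀ η : ℝ, 0 < η → ∃ U ∈ 𝓝 (1 : GR), ∀ u ∈ U, ∀ g : GR, |per f (u * g) - per f g| ≤ η

/-- MEAN: almost everywhere convergence along a subsequence -/
def T_MEAN : Prop :=
  ∀ D : Set GR, IsFD D → haarG D < ∞ → ∀ (i : Fin 3) (f : C_c(GR, ℝ)),
    ∃ κ : ℕ → ℕ, StrictMono κ ∧
      ∀ᵐ g ∂haarG, Tendsto (fun k => SN f i (κ k) g) atTop
        (𝓝 ((∫ x, f x ∂haarG) / (haarG D).toReal))

/-- GOOD: the exceptional set depends only on the `i`-th row -/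
def T_GOOD : Prop :=
  ∀ D : Set GR, IsFD D → haarG D < ∞ → ∀ (i : Fin 3) (f : C_c(GR, ℝ)),
    ∃ (κ : ℕ → ℕ) (E : Set V3), StrictMono κ ∧ volume E = 0 ∧
      ∀ g : GR, ent g i ∉ E → Tendsto (fun k => SN f i (κ k) g) atTop
        (𝓝 ((∫ x, f x ∂haarG) / (haarG D).toReal))

/-- HOPF: measure rigidity -/
def T_HOPF : Prop :=
  ∀ ρ : Measure GR, IsLocallyFiniteMeasure ρ →
    (∀ s : Fin 3 → ℝ, ρ.map (fun g => dg s * g) = ρ) →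
    (∀ γ : GZ, ρ.map (fun g => g * toR γ) = ρ) →
    (∀ E : Set V3, volume E = 0 → ρ {g : GR | ∀ i, ent g i ∈ E} = 0) →
    ∃ κ : NNReal, ρ = κ • haarG

/-- LIM: limits along ultrafilters -/
def T_LIM : Prop :=
  ∀ U : Ultrafilter ℕ, (U : Filter ℕ) ≤ atTop → ∃ κ : ℝ, 0 < κ ∧
    ∀ W K : Set GR, IsCompact K → W ⊆ K → haarG (frontier W) = 0 →
      Tendsto (fun m : ℕ => (rho m W).toReal / Zm m) U (𝓝 (κ * (haarG W).toReal))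

/-! ## E. Geometry of faces -/

/-- the lattice polygon with vertices `(s, 1)`, `s ∈ S` -/
def poly (S : Finset (ℤ × ℤ)) : Set (Vec 2) :=
  convexHull ℝ ((fun s : ℤ × ℤ => (![(s.1 : ℝ), (s.2 : ℝ), 1] : Vec 2)) '' (S : Set (ℤ × ℤ)))

/-- `S` contains three non collinear points -/
def Dim2 (S : Finset (ℤ × ℤ)) : Prop :=
  ∃ a ∈ S, ∃ b ∈ S, ∃ c ∈ S, (b.1 - a.1) * (c.2 - a.2) - (b.2 - a.2) * (c.1 - a.1) ≠ 0

/-- coordinates of `p` in the basis of the rows `r i` -/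
noncomputable def coef (r : Fin 3 → V3) (p : V3) : V3 := Matrix.vecMul p (Matrix.of r)⁻¹

/-- explicit description of `poly S` being a face: all the lines meet the plane `x₂ = 1` and the
triangle they cut out has the same integer points as `poly S` -/
def UF (S : Finset (ℤ × ℤ)) (r : Fin 3 → V3) : Prop :=
  (∀ i, r i 2 ≠ 0) ∧ ∀ x y : ℤ,
    ((∀ i, 0 ≤ coef r ![(x : ℝ), (y : ℝ), 1] i * r i 2) ↔
      (![(x : ℝ), (y : ℝ), 1] : V3) ∈ poly S)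

def T_FACE : Prop :=
  ∀ (S : Finset (ℤ × ℤ)) (r : Fin 3 → V3), Dim2 S → Matrix.det (Matrix.of r) ≠ 0 →
    (∀ i, r i 2 ≠ 0 ∨ ∃ z : VZ, r i = cst z) → (IsFace (n := 2) r (poly S) ↔ UF S r)

/-- the test set `W S` in the group -/
def WS (S : Finset (ℤ × ℤ)) : Set GR :=
  {g : GR | UF S (ent g) ∧ ∀ i, 1 ≤ nrm (ent g i) ∧ nrm (ent g i) < Real.exp 1}

/-- the set of continued fractions with face `poly S` is relatively compact -/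
def RelCpt (S : Finset (ℤ × ℤ)) : Prop :=
  ∃ R : ℝ, ∀ p : Fin 3 → Fin 2 → ℝ, detP (n := 2) p ≠ 0 → IsFace (n := 2) (liftP p) (poly S) →
    ∀ i j, |p i j| ≤ R

/-- WM: measurability of the test sets -/
def T_WM : Prop := ∀ S : Finset (ℤ × ℤ), MeasurableSet (WS S)

def T_W : Prop :=
  ∀ S : Finset (ℤ × ℤ), Dim2 S → RelCpt S →
    (∃ K : Set GR, IsCompact K ∧ WS S ⊆ K) ∧ haarG (frontier (WS S)) = 0

def T_HW : Prop :=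
  ∀ S : Finset (ℤ × ℤ), Dim2 S → haarG (WS S) = moebius (n := 2) (poly S)

def T_CNT : Prop :=
  ∀ (S : Finset (ℤ × ℤ)) (m : ℕ), Dim2 S →
    rho m (WS S) = 48 * ((stabF (n := 2) (poly S)).encard : ℝ≥0∞) *
      (({p : MZ × Set (Vec 2) | l1 (n := 2) p.1 ≤ m ∧ p.2 ∈ facesOf (n := 2) p.1 ∧
        Congr (n := 2) (poly S) p.2}).encard : ℝ≥0∞)

/-- the two explicit faces -/
def S1 : Finset (ℤ × ℤ) := {(0, 0), (2, 0), (0, 2)}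
def S2 : Finset (ℤ × ℤ) := {(0, 0), (2, 0), (0, 3)}

def T_STAB : Prop :=
  (∀ S : Finset (ℤ × ℤ), Dim2 S → (stabF (n := 2) (poly S)).Finite) ∧
  (stabF (n := 2) (poly S1)).ncard = 6 ∧ (stabF (n := 2) (poly S2)).ncard = 1

def T_EX : Prop :=
  RelCpt S1 ∧ RelCpt S2 ∧ 0 < moebius (n := 2) (poly S1) ∧ 0 < moebius (n := 2) (poly S2)

/-- the final statement -/
def T_MAIN : Prop :=
  (¬ ∃ c : ℝ, 0 < c ∧ ∀ F : Set (Vec 2), IsIntPolytope F →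
      Module.finrank ℝ (vectorSpan ℝ F) = 2 →
      ∃ ν : ℝ, IsArnoldFreq F ν ∧ moebius F = ENNReal.ofReal (c * ν)) ∧
  (∀ T : ℕ → ℝ, ¬ ∃ c : ℝ, 0 < c ∧ ∀ F : Set (Vec 2), IsIntPolytope F →
      Module.finrank ℝ (vectorSpan ℝ F) = 2 →
      ∃ ν : ℝ, Tendsto (fun m : ℕ => (cntF F m : ℝ) / T m) atTop (𝓝 ν) ∧
        moebius F = ENNReal.ofReal (c * ν)) ∧
  (∀ S S' : Finset (ℤ × ℤ), Dim2 S → Dim2 S' → RelCpt S → RelCpt S' →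
    0 < moebius (n := 2) (poly S') →
    Tendsto (fun m : ℕ => (cntF (n := 2) (poly S) m : ℝ) / (cntF (n := 2) (poly S') m : ℝ)) atTop
      (𝓝 (((moebius (n := 2) (poly S)).toReal / (stabF (n := 2) (poly S)).ncard) /
        ((moebius (n := 2) (poly S')).toReal / (stabF (n := 2) (poly S')).ncard))))

end KF
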