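import Mathlib
import Pool.Agent.H22.KF.Targets

/-!
# MP_3fd637_nt : module INV
-/

open MeasureTheory Filter Topology
open scoped ENNReal

namespace KF

theorem continuous_dg_mul (h : GR) : Continuous (fun s : Fin 3 → ℝ => dg s * h) :=
  continuous_dg.mul continuous_const

/-- transposition on `GL(3, ℤ)` -/
def trZ (γ : GZ) : GZ where
  val := (γ : MZ).transpose
  inv := ((γ⁻¹ : GZ) : MZ).transpose
  val_inv := by rw [← Matrix.transpose_mul, ← Units.val_mul, inv_mul_cancel, Units.val_one,
    Matrix.transpose_one]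
  inv_val := by rw [← Matrix.transpose_mul, ← Units.val_mul, mul_inv_cancel, Units.val_one,
    Matrix.transpose_one]

theorem Frame.ext' {φ ψ : Frame} (h1 : φ.M = ψ.M) (h2 : φ.ev = ψ.ev) (h3 : φ.v = ψ.v) : φ = ψ := by
  cases φ; cases ψ; simp only at h1 h2 h3; subst h1; subst h2; subst h3; rfl

theorem Frame.act_mul (γ γ' : GZ) (φ : Frame) :
    Frame.act (γ * γ') φ = Frame.act γ (Frame.act γ' φ) := by
  apply Frame.ext'
  · exact conjZ_mul γ γ' φ.M
  · rfl
  · funext i; exact mulZ_mul γ γ' (φ.v i)

theorem Frame.act_one (φ : Frame) : Frame.act 1 φ = φ := by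
  apply Frame.ext'
  · exact conjZ_one φ.M
  · rfl
  · funext i; exact mulZ_one (φ.v i)

/-- the action of a fixed `γ` as a permutation of `Frame` -/
def Frame.actE (γ : GZ) : Frame ≃ Frame where
  toFun := Frame.act γ
  invFun := Frame.act γ⁻¹
  left_inv φ := by rw [← Frame.act_mul, inv_mul_cancel, Frame.act_one]
  right_inv φ := by rw [← Frame.act_mul, mul_inv_cancel, Frame.act_one]

theorem bm_conj (m : ℕ) (γ : GZ) (M : MZ) : bm m (conjZ γ M) = bm m M := by
  unfold bm
  rw [← (Equiv.mulRight γ).tsum_eq (fun γ' : GZ => if l1 (conjZ γ' M) ≤ m then (1 : ℝ≥0∞) else 0)]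
  refine tsum_congr ?_
  intro γ'
  rw [Equiv.coe_mulRight, conjZ_mul]

theorem R_mul_toR (γ : GZ) (φ : Frame) : φ.R * toR γ = (Frame.act (trZ γ) φ).R := by
  apply Units.ext
  ext i j
  rw [Units.val_mul, Matrix.mul_apply, Frame.R_apply]
  simp only [Frame.R_apply, toR_apply]
  show _ = (((mulZ (trZ γ) (φ.v i)) j : ℤ) : ℝ)
  simp only [mulZ, Matrix.mulVec, dotProduct]
  push_cast
  refine Finset.sum_congr rfl ?_
  intro k _
  show _ = (((γ : MZ).transpose j k : ℤ) : ℝ) * _
  rw [Matrix.transpose_apply]
  ring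

theorem orb_left (s : Fin 3 → ℝ) (φ : Frame) : (orb φ).map (fun g => dg s * g) = orb φ := by
  unfold orb
  have hm : Measurable (fun g : GR => dg s * g) := (continuous_const.mul continuous_id).measurable
  rw [Measure.map_map hm (continuous_dg_mul φ.R).measurable]
  have h1 : ((fun g : GR => dg s * g) ∘ fun t : Fin 3 → ℝ => dg t * φ.R)
      = (fun t : Fin 3 → ℝ => dg t * φ.R) ∘ (fun t => s + t) := by
    funext t
    simp only [Function.comp]
    rw [dg_add, mul_assoc]
  rw [h1, ← Measure.map_map (continuous_dg_mul φ.R).measurable (measurable_const_add s),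
    map_add_left_eq_self]

theorem orb_right (γ : GZ) (φ : Frame) :
    (orb φ).map (fun g => g * toR γ) = orb (Frame.act (trZ γ) φ) := by
  unfold orb
  have hm : Measurable (fun g : GR => g * toR γ) := (continuous_id.mul continuous_const).measurable
  rw [Measure.map_map hm (continuous_dg_mul φ.R).measurable]
  congr 1
  funext t
  simp only [Function.comp]
  rw [mul_assoc, R_mul_toR]

theorem t_INV : T_INV := by
  intro m
  refine ⟨?_, ?_⟩
  · intro s
    have hmeas : Measurable (fun g : GR => dg s * g) := (continuous_const.mul continuous_id).measurable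
    unfold rho
    rw [Measure.map_sum hmeas.aemeasurable]
    congr 1
    funext φ
    rw [Measure.map_smul, orb_left]
  · intro γ
    have hmeas : Measurable (fun g : GR => g * toR γ) := (continuous_id.mul continuous_const).measurable
    unfold rho
    rw [Measure.map_sum hmeas.aemeasurable]
    ext A hA
    rw [Measure.sum_apply _ hA, Measure.sum_apply _ hA,
      ← (Frame.actE (trZ γ)).tsum_eq (fun φ => (bm m φ.M • orb φ) A)]
    refine tsum_congr ?_
    intro φ
    rw [Measure.map_smul, orb_right]
    show (bm m φ.M • orb (Frame.act (trZ γ) φ)) A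
      = (bm m (Frame.act (trZ γ) φ).M • orb (Frame.act (trZ γ) φ)) A
    congr 2
    exact (bm_conj m (trZ γ) φ.M).symm

end KF
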