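import Mathlib
import Pool.Agent.H22.KF.Targets

/-!
# MP_3fd637_nt : final assembly
-/

open MeasureTheory Filter Topology
open scoped ENNReal CompactlySupported

namespace KF

theorem Zm_pos {m : ℕ} (hm : 2 ≤ m) : 0 < Zm m := by
  unfold Zm
  have h1 : (0 : ℝ) < m := by exact_mod_cast (by omega : 0 < m)
  have h2 : 0 < Real.log m := Real.log_pos (by exact_mod_cast (by omega : 1 < m))
  positivity

theorem isIntPolytope_poly {S : Finset (ℤ × ℤ)} (hS : S.Nonempty) :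
    IsIntPolytope (n := 2) (poly S) := by
  classical
  refine ⟨S.image (fun s : ℤ × ℤ => (![(s.1 : ℝ), (s.2 : ℝ), 1] : Vec 2)), ?_, ?_, ?_⟩
  · exact hS.image _
  · intro x hx
    rw [Finset.mem_image] at hx
    obtain ⟨s, _, rfl⟩ := hx
    intro i
    fin_cases i
    · exact ⟨s.1, by simp⟩
    · exact ⟨s.2, by simp⟩
    · exact ⟨1, by simp⟩
  · unfold poly
    rw [Finset.coe_image]

theorem finrank_poly {S : Finset (ℤ × ℤ)} (hS : Dim2 S) :
    Module.finrank ℝ (vectorSpan ℝ (poly S)) = 2 := by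
  obtain ⟨a, ha, b, hb, c, hc, hd⟩ := hS
  have hmem : ∀ s ∈ S, (![(s.1 : ℝ), (s.2 : ℝ), 1] : Vec 2) ∈ poly S := by
    intro s hs
    exact subset_convexHull ℝ _ ⟨s, hs, rfl⟩
  set P : Submodule ℝ (Vec 2) := LinearMap.ker (LinearMap.proj (R := ℝ) (φ := fun _ : Fin 3 => ℝ) 2)
    with hP
  have h2 : ∀ x ∈ poly S, x 2 = 1 := by
    have hconv : Convex ℝ {x : Vec 2 | x 2 = 1} := by
      intro x hx y hy s t _ _ hst
      simp only [Set.mem_ofPred_eq, Pi.add_apply, Pi.smul_apply, smul_eq_mul] at *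
      rw [hx, hy]; linarith
    have hsub : poly S ⊆ {x : Vec 2 | x 2 = 1} := by
      apply convexHull_min _ hconv
      rintro _ ⟨s, _, rfl⟩
      simp
    exact fun x hx => hsub hx
  have hle : vectorSpan ℝ (poly S) ≤ P := by
    rw [vectorSpan_def, Submodule.span_le]
    rintro _ ⟨x, hx, y, hy, rfl⟩
    simp only [hP, SetLike.mem_coe, LinearMap.mem_ker, LinearMap.proj_apply]
    show (x -ᵥ y) 2 = 0
    rw [vsub_eq_sub, Pi.sub_apply, h2 x hx, h2 y hy, sub_self]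
  have hge : P ≤ vectorSpan ℝ (poly S) := by
    intro x hx
    have hx2 : x 2 = 0 := by
      simpa [hP, LinearMap.mem_ker] using hx
    have e1 : (![(b.1 : ℝ), (b.2 : ℝ), 1] : Vec 2) - ![(a.1 : ℝ), (a.2 : ℝ), 1]
        ∈ vectorSpan ℝ (poly S) := vsub_mem_vectorSpan ℝ (hmem b hb) (hmem a ha)
    have e2 : (![(c.1 : ℝ), (c.2 : ℝ), 1] : Vec 2) - ![(a.1 : ℝ), (a.2 : ℝ), 1]
        ∈ vectorSpan ℝ (poly S) := vsub_mem_vectorSpan ℝ (hmem c hc) (hmem a ha)
    set D : ℝ := ((b.1 : ℝ) - a.1) * ((c.2 : ℝ) - a.2) - ((b.2 : ℝ) - a.2) * ((c.1 : ℝ) - a.1)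
      with hD
    have hD0 : D ≠ 0 := by
      rw [hD]
      exact_mod_cast hd
    have hx' : x = ((x 0 * ((c.2 : ℝ) - a.2) - x 1 * ((c.1 : ℝ) - a.1)) / D) •
          ((![(b.1 : ℝ), (b.2 : ℝ), 1] : Vec 2) - ![(a.1 : ℝ), (a.2 : ℝ), 1]) +
        ((((b.1 : ℝ) - a.1) * x 1 - ((b.2 : ℝ) - a.2) * x 0) / D) •
          ((![(c.1 : ℝ), (c.2 : ℝ), 1] : Vec 2) - ![(a.1 : ℝ), (a.2 : ℝ), 1]) := by
      funext i
      fin_cases i
      · simp
        field_simp
        rw [hD]; ring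
      · simp
        field_simp
        rw [hD]; ring
      · simpa using hx2
    rw [hx']
    exact Submodule.add_mem _ (Submodule.smul_mem _ _ e1) (Submodule.smul_mem _ _ e2)
  have heq : vectorSpan ℝ (poly S) = P := le_antisymm hle hge
  rw [heq]
  have hsurj : Function.Surjective
      (LinearMap.proj (R := ℝ) (φ := fun _ : Fin 3 => ℝ) 2) := by
    intro y
    exact ⟨fun _ => y, rfl⟩
  have := LinearMap.finrank_range_add_finrank_ker
    (LinearMap.proj (R := ℝ) (φ := fun _ : Fin 3 => ℝ) 2)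
  rw [LinearMap.range_eq_top.2 hsurj, finrank_top, Module.finrank_self, Module.finrank_fintype_fun_eq_card,
    Fintype.card_fin] at this
  rw [hP]
  change Module.finrank ℝ (LinearMap.ker (LinearMap.proj (R := ℝ) (φ := fun _ : Fin 3 => ℝ) 2)) = 2
  clear hd
  linarith

theorem dim2_S1 : Dim2 S1 := by
  refine ⟨(0, 0), ?_, (2, 0), ?_, (0, 2), ?_, ?_⟩ <;> simp [S1]

theorem dim2_S2 : Dim2 S2 := by
  refine ⟨(0, 0), ?_, (2, 0), ?_, (0, 3), ?_, ?_⟩ <;> simp [S2]


/-- the finiteness and the value of the count -/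
theorem count_eq (hP3 : T_P3) (hW : T_W) (hCNT : T_CNT) (hSTAB : T_STAB) {S : Finset (ℤ × ℤ)}
    (hS : Dim2 S) (hR : RelCpt S) {m : ℕ} (hm : 2 ≤ m) :
    (rho m (WS S)).toReal = 48 * (stabF (n := 2) (poly S)).ncard * (cntF (n := 2) (poly S) m) := by
  have hc := hCNT S m hS
  obtain ⟨⟨K, hK, hWK⟩, -⟩ := hW S hS hR
  obtain ⟨C, hC⟩ := hP3 K hK
  have hfin : rho m (WS S) ≠ ∞ :=
    ne_top_of_le_ne_top ENNReal.ofReal_ne_top ((measure_mono hWK).trans (hC m hm))
  have hst : (stabF (n := 2) (poly S)).Finite := hSTAB.1 S hS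
  have hst0 : (stabF (n := 2) (poly S)).encard ≠ 0 := by
    rw [Set.encard_ne_zero]
    refine ⟨1, ?_⟩
    show actV (1 : GL (Fin 3) ℤ) '' poly S = poly S
    have : actV (n := 2) (1 : GL (Fin 3) ℤ) = id := by
      funext x
      unfold actV
      rw [Units.val_one, Matrix.map_one _ Int.cast_zero Int.cast_one, Matrix.one_mulVec]
      rfl
    rw [this, Set.image_id]
  set A := {p : MZ × Set (Vec 2) | l1 (n := 2) p.1 ≤ m ∧ p.2 ∈ facesOf (n := 2) p.1 ∧
        Congr (n := 2) (poly S) p.2} with hA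
  have hAf : A.Finite := by
    by_contra hinf
    have : A.encard = ⊤ := Set.Infinite.encard_eq hinf
    rw [this] at hc
    apply hfin
    rw [hc]
    have h1 : ((stabF (n := 2) (poly S)).encard : ℝ≥0∞) ≠ 0 := by
      simpa using hst0
    rw [ENat.toENNReal_top]
    apply ENNReal.mul_top
    exact mul_ne_zero (by norm_num) h1
  rw [hc, ← hst.cast_ncard_eq, ← hAf.cast_ncard_eq]
  simp only [ENNReal.toReal_mul, ENat.toENNReal_coe, ENNReal.toReal_natCast]
  norm_num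
  left
  rfl

theorem law (hHAAR : T_HAAR) (hP3 : T_P3) (hW : T_W) (hHW : T_HW) (hCNT : T_CNT) (hSTAB : T_STAB) (hLIM : T_LIM)
    {S S' : Finset (ℤ × ℤ)} (hS : Dim2 S) (hS' : Dim2 S') (hR : RelCpt S) (hR' : RelCpt S')
    (hpos : 0 < moebius (n := 2) (poly S')) :
    Tendsto (fun m : ℕ => (cntF (n := 2) (poly S) m : ℝ) / (cntF (n := 2) (poly S') m : ℝ)) atTop
      (𝓝 (((moebius (n := 2) (poly S)).toReal / (stabF (n := 2) (poly S)).ncard) /
        ((moebius (n := 2) (poly S')).toReal / (stabF (n := 2) (poly S')).ncard))) := by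
  rw [tendsto_iff_ultrafilter]
  intro U hU
  obtain ⟨κ, hκ, hlim⟩ := hLIM U hU
  obtain ⟨⟨K, hK, hWK⟩, hfr⟩ := hW S hS hR
  obtain ⟨⟨K', hK', hWK'⟩, hfr'⟩ := hW S' hS' hR'
  have h1 := hlim (WS S) K hK hWK hfr
  have h2 := hlim (WS S') K' hK' hWK' hfr'
  rw [hHW S hS] at h1
  rw [hHW S' hS'] at h2
  have hstn : ∀ T : Finset (ℤ × ℤ), Dim2 T → (0 : ℝ) < (stabF (n := 2) (poly T)).ncard := by
    intro T hT
    have hst : (stabF (n := 2) (poly T)).Finite := hSTAB.1 T hT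
    have hne : (stabF (n := 2) (poly T)).Nonempty := by
      refine ⟨1, ?_⟩
      show actV (1 : GL (Fin 3) ℤ) '' poly T = poly T
      have : actV (n := 2) (1 : GL (Fin 3) ℤ) = id := by
        funext x
        unfold actV
        rw [Units.val_one, Matrix.map_one _ Int.cast_zero Int.cast_one, Matrix.one_mulVec]
        rfl
      rw [this, Set.image_id]
    exact_mod_cast (Set.ncard_pos hst).2 hne
  have hs := hstn S hS
  have hs' := hstn S' hS'
  have hμ' : 0 < (moebius (n := 2) (poly S')).toReal := by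
    apply ENNReal.toReal_pos hpos.ne'
    rw [← hHW S' hS']
    have := hHAAR.2.2
    exact ne_top_of_le_ne_top (hK'.measure_lt_top (μ := haarG)).ne (measure_mono hWK')
  have h3 := (h1.div_const (48 * ((stabF (n := 2) (poly S)).ncard : ℝ))).div
    (h2.div_const (48 * ((stabF (n := 2) (poly S')).ncard : ℝ))) (by positivity)
  have hev : ∀ᶠ m : ℕ in (U : Filter ℕ), 2 ≤ m := hU (eventually_ge_atTop 2)
  refine (h3.congr' ?_).trans (le_of_eq ?_)
  · filter_upwards [hev] with m hm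
    simp only [Pi.div_apply]
    rw [count_eq hP3 hW hCNT hSTAB hS hR hm, count_eq hP3 hW hCNT hSTAB hS' hR' hm]
    have hZ := Zm_pos hm
    by_cases h0 : (cntF (n := 2) (poly S') m : ℝ) = 0
    · rw [h0]; simp
    · field_simp
  · congr 1
    field_simp

theorem moebius_lt_top (hHAAR : T_HAAR) (hW : T_W) (hHW : T_HW) {S : Finset (ℤ × ℤ)}
    (hS : Dim2 S) (hR : RelCpt S) : moebius (n := 2) (poly S) ≠ ∞ := by
  obtain ⟨⟨K, hK, hWK⟩, -⟩ := hW S hS hR
  rw [← hHW S hS]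
  have := hHAAR.2.2
  exact ne_top_of_le_ne_top (hK.measure_lt_top (μ := haarG)).ne (measure_mono hWK)

theorem no_const (hHAAR : T_HAAR) (hP3 : T_P3) (hW : T_W) (hHW : T_HW) (hCNT : T_CNT)
    (hSTAB : T_STAB) (hEX : T_EX) (hLIM : T_LIM) (T : ℕ → ℝ) :
    ¬ ∃ c : ℝ, 0 < c ∧ ∀ F : Set (Vec 2), IsIntPolytope F →
      Module.finrank ℝ (vectorSpan ℝ F) = 2 →
      ∃ ν : ℝ, Tendsto (fun m : ℕ => (cntF F m : ℝ) / T m) atTop (𝓝 ν) ∧
        moebius F = ENNReal.ofReal (c * ν) := by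
  rintro ⟨c, hc, hall⟩
  obtain ⟨hR1, hR2, hpos1, hpos2⟩ := hEX
  obtain ⟨ν1, hν1, hm1⟩ := hall (poly S1) (isIntPolytope_poly (by simp [S1]))
    (finrank_poly dim2_S1)
  obtain ⟨ν2, hν2, hm2⟩ := hall (poly S2) (isIntPolytope_poly (by simp [S2]))
    (finrank_poly dim2_S2)
  have hl := law hHAAR hP3 hW hHW hCNT hSTAB hLIM dim2_S1 dim2_S2 hR1 hR2 hpos2
  rw [hSTAB.2.1, hSTAB.2.2] at hl
  have hn1 : 0 < ν1 := by
    rw [hm1] at hpos1
    have := ENNReal.ofReal_pos.1 hpos1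
    exact (mul_pos_iff_of_pos_left hc).1 this
  have hn2 : 0 < ν2 := by
    rw [hm2] at hpos2
    have := ENNReal.ofReal_pos.1 hpos2
    exact (mul_pos_iff_of_pos_left hc).1 this
  have hlim : Tendsto (fun m : ℕ => (cntF (n := 2) (poly S1) m : ℝ) /
      (cntF (n := 2) (poly S2) m : ℝ)) atTop (𝓝 (ν1 / ν2)) := by
    refine (hν1.div hν2 hn2.ne').congr' ?_
    have hev : ∀ᶠ m : ℕ in atTop, 0 < (cntF (n := 2) (poly S2) m : ℝ) / T m :=
      hν2.eventually (lt_mem_nhds hn2)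
    filter_upwards [hev] with m hm
    have hT : T m ≠ 0 := by
      intro h0
      rw [h0, div_zero] at hm
      exact lt_irrefl _ hm
    simp only [Pi.div_apply]
    exact div_div_div_cancel_right₀ hT _ _
  have huniq := tendsto_nhds_unique hl hlim
  rw [hm1, hm2, ENNReal.toReal_ofReal (by positivity), ENNReal.toReal_ofReal (by positivity)]
    at huniq
  field_simp at huniq
  norm_num at huniq

/-- the main theorem from the module statements -/
theorem main_of (hHAAR : T_HAAR) (hP3 : T_P3) (hW : T_W) (hHW : T_HW) (hCNT : T_CNT)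
    (hSTAB : T_STAB) (hEX : T_EX) (hLIM : T_LIM) : T_MAIN := by
  refine ⟨?_, ?_, ?_⟩
  · have := no_const hHAAR hP3 hW hHW hCNT hSTAB hEX hLIM (fun m => (cntAll 2 m : ℝ))
    exact this
  · exact no_const hHAAR hP3 hW hHW hCNT hSTAB hEX hLIM
  · intro S S' hS hS' hR hR' hpos
    exact law hHAAR hP3 hW hHW hCNT hSTAB hLIM hS hS' hR hR' hpos

end KF
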