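import Mathlib
import Pool.Agent.H22.KF.Main

/-!
# MP_3fd637_nt : module LIM (limits along ultrafilters)
-/

open MeasureTheory Filter Topology
open scoped ENNReal CompactlySupported

namespace KF

section General

variable {X : Type*} [TopologicalSpace X] [T2Space X] [LocallyCompactSpace X]
  [MeasurableSpace X] [BorelSpace X]

/-- Urysohn functions in `C_c`. -/
theorem exists_cc {K V : Set X} (hK : IsCompact K) (hV : IsOpen V) (hKV : K ⊆ V) :
    ∃ f : C_c(X, ℝ), (∀ x ∈ K, f x = 1) ∧ (∀ x, x ∉ V → f x = 0) ∧ (∀ x, 0 ≤ f x) ∧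
      (∀ x, f x ≤ 1) := by
  obtain ⟨f, h1, h2, h3, h4⟩ := exists_continuousMap_one_of_isCompact_subset_isOpen hK hV hKV
  refine ⟨⟨f, h2⟩, ?_, ?_, ?_, ?_⟩
  · intro x hx; exact h1 hx
  · intro x hx
    by_contra hne
    exact hx (h3 (subset_tsupport _ hne))
  · intro x; exact (h4 x).1
  · intro x; exact (h4 x).2

theorem cc_integral_le {μ : Measure X} [IsFiniteMeasureOnCompacts μ] (f : C_c(X, ℝ)) {V : Set X}
    (h0 : ∀ x, x ∉ V → f x = 0) (hf1 : ∀ x, f x ≤ 1) (hV : μ V ≠ ∞) (hVm : MeasurableSet V) :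
    ∫ x, f x ∂μ ≤ (μ V).toReal := by
  have h1 : ∫ x, f x ∂μ ≤ ∫ x, V.indicator (fun _ => (1 : ℝ)) x ∂μ := by
    apply integral_mono f.integrable
    · exact (integrable_indicator_iff hVm).2 (integrableOn_const hV)
    · intro x
      by_cases hx : x ∈ V
      · rw [Set.indicator_of_mem hx]; exact hf1 x
      · rw [Set.indicator_of_notMem hx, h0 x hx]
  rw [integral_indicator hVm] at h1
  simpa [Measure.real] using h1

theorem cc_le_integral {μ : Measure X} [IsFiniteMeasureOnCompacts μ] (f : C_c(X, ℝ)) {K : Set X}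
    (h1K : ∀ x ∈ K, f x = 1) (h0 : ∀ x, 0 ≤ f x) (hKm : MeasurableSet K) (hK : μ K ≠ ∞) :
    (μ K).toReal ≤ ∫ x, f x ∂μ := by
  have h1 : ∫ x, K.indicator (fun _ => (1 : ℝ)) x ∂μ ≤ ∫ x, f x ∂μ := by
    apply integral_mono _ f.integrable
    · intro x
      by_cases hx : x ∈ K
      · rw [Set.indicator_of_mem hx, h1K x hx]
      · rw [Set.indicator_of_notMem hx]; exact h0 x
    · exact (integrable_indicator_iff hKm).2 (integrableOn_const hK)
  rw [integral_indicator hKm] at h1
  simpa [Measure.real] using h1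

/-- existence of a limit measure along an ultrafilter -/
theorem exists_limit (ρ : ℕ → Measure X) (Z : ℕ → ℝ) (hZ : ∀ m, 2 ≤ m → 0 < Z m)
    (h3 : ∀ K : Set X, IsCompact K → ∃ C : ℝ, ∀ m : ℕ, 2 ≤ m → ρ m K ≤ ENNReal.ofReal (C * Z m))
    (U : Ultrafilter ℕ) (hU : (U : Filter ℕ) ≤ atTop) :
    ∃ ν : Measure X, ν.Regular ∧ ∀ f : C_c(X, ℝ),
      Tendsto (fun m : ℕ => (∫ x, f x ∂(ρ m)) / Z m) U (𝓝 (∫ x, f x ∂ν)) := by
  have hfin : ∀ m, 2 ≤ m → IsFiniteMeasureOnCompacts (ρ m) := by
    intro m hm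
    refine ⟨fun K hK => ?_⟩
    obtain ⟨C, hC⟩ := h3 K hK
    exact lt_of_le_of_lt (hC m hm) ENNReal.ofReal_lt_top
  have hev : ∀ᶠ m : ℕ in (U : Filter ℕ), 2 ≤ m := hU (eventually_ge_atTop 2)
  have hex : ∀ f : C_c(X, ℝ), ∃ a : ℝ,
      Tendsto (fun m : ℕ => (∫ x, f x ∂(ρ m)) / Z m) U (𝓝 a) := by
    intro f
    obtain ⟨C, hC⟩ := h3 (tsupport f) f.hasCompactSupport
    obtain ⟨B, hB, hB0⟩ : ∃ B : ℝ, (∀ x, ‖f x‖ ≤ B) ∧ 0 ≤ B := by
      obtain ⟨B', hB'⟩ := f.hasCompactSupport.exists_bound_of_continuous f.continuous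
      exact ⟨max B' 0, fun x => (hB' x).trans (le_max_left _ _), le_max_right _ _⟩
    have hbd : ∀ m, 2 ≤ m → (∫ x, f x ∂(ρ m)) / Z m ∈ Set.Icc (-(B * |C|)) (B * |C|) := by
      intro m hm
      have := hfin m hm
      have h1 : |∫ x, f x ∂(ρ m)| ≤ B * (ρ m (tsupport f)).toReal := by
        have h2 : ∫ x, f x ∂(ρ m) = ∫ x in tsupport f, f x ∂(ρ m) := by
          rw [setIntegral_eq_integral_of_forall_compl_eq_zero]
          intro x hx
          exact image_eq_zero_of_notMem_tsupport hx
        rw [h2]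
        have := norm_setIntegral_le_of_norm_le_const (μ := ρ m) (s := tsupport f) (f := f) (C := B)
          (f.hasCompactSupport.isCompact.measure_lt_top) (fun x _ => hB x)
        simpa [Real.norm_eq_abs, Measure.real] using this
      have h4 : (ρ m (tsupport f)).toReal ≤ |C| * Z m := by
        apply ENNReal.toReal_le_of_le_ofReal (by have := hZ m hm; positivity)
        refine (hC m hm).trans (ENNReal.ofReal_le_ofReal ?_)
        exact mul_le_mul_of_nonneg_right (le_abs_self C) (hZ m hm).le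
      have h5 : |(∫ x, f x ∂(ρ m)) / Z m| ≤ B * |C| := by
        rw [abs_div, abs_of_pos (hZ m hm), div_le_iff₀ (hZ m hm)]
        calc |∫ x, f x ∂(ρ m)| ≤ B * (ρ m (tsupport f)).toReal := h1
          _ ≤ B * (|C| * Z m) := mul_le_mul_of_nonneg_left h4 hB0
          _ = B * |C| * Z m := by ring
      exact abs_le.1 h5
    obtain ⟨a, _, ha⟩ := isCompact_Icc.ultrafilter_le_nhds'
      (U.map (fun m : ℕ => (∫ x, f x ∂(ρ m)) / Z m)) (by
        rw [Ultrafilter.mem_map]
        filter_upwards [hev] with m hm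
        exact hbd m hm)
    exact ⟨a, ha⟩
  choose L hL using hex
  have hneBot : (U : Filter ℕ).NeBot := U.neBot
  let Λ : C_c(X, ℝ) →ₚ[ℝ] ℝ := PositiveLinearMap.mk₀
    { toFun := L
      map_add' := by
        intro f g
        refine tendsto_nhds_unique (hL (f + g)) ?_
        refine ((hL f).add (hL g)).congr' ?_
        filter_upwards [hev] with m hm
        have := hfin m hm
        rw [← add_div]
        congr 1
        exact (integral_add' f.integrable g.integrable).symm
      map_smul' := by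
        intro c f
        refine tendsto_nhds_unique (hL (c • f)) ?_
        refine ((hL f).const_mul c).congr' ?_
        filter_upwards [hev] with m hm
        have := hfin m hm
        rw [← mul_div_assoc]
        congr 1
        exact (integral_smul c f).symm }
    (by
      intro f hf
      show 0 ≤ L f
      refine ge_of_tendsto (hL f) ?_
      filter_upwards [hev] with m hm
      exact div_nonneg (integral_nonneg hf) (hZ m hm).le)
  refine ⟨RealRMK.rieszMeasure Λ, inferInstance, ?_⟩
  intro f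
  rw [RealRMK.integral_rieszMeasure]
  exact hL f

end General

/-- the core: the limit measure is a positive multiple of Haar measure -/
theorem limit_haar (hP3 : T_P3) (hP4 : T_P4) (hP5 : T_P5) (hINV : T_INV) (hHOPF : T_HOPF)
    (U : Ultrafilter ℕ) (hU : (U : Filter ℕ) ≤ atTop) :
    ∃ κ : ℝ, 0 < κ ∧ ∀ f : C_c(GR, ℝ),
      Tendsto (fun m : ℕ => (∫ x, f x ∂(rho m)) / Zm m) U (𝓝 (κ * ∫ x, f x ∂haarG)) := by
  obtain ⟨ν, hνr, hν⟩ := exists_limit rho Zm (fun m hm => Zm_pos hm) hP3 U hU
  have hneBot : (U : Filter ℕ).NeBot := U.neBot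
  have hev : ∀ᶠ m : ℕ in (U : Filter ℕ), 2 ≤ m := hU (eventually_ge_atTop 2)
  have hfin : ∀ m, 2 ≤ m → IsFiniteMeasureOnCompacts (rho m) := by
    intro m hm
    refine ⟨fun K hK => ?_⟩
    obtain ⟨C, hC⟩ := hP3 K hK
    exact lt_of_le_of_lt (hC m hm) ENNReal.ofReal_lt_top
  -- invariance
  have hinv : ∀ T : GR ≃ₜ GR, (∀ m, (rho m).map T = rho m) → ν.map T = ν := by
    intro T hT
    have : (ν.map T).Regular := Measure.Regular.map T
    apply Measure.ext_of_integral_eq_on_compactlySupported
    intro f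
    have h1 : ∫ x, f x ∂(ν.map T) = ∫ x, f (T x) ∂ν :=
      T.isClosedEmbedding.measurableEmbedding.integral_map f
    rw [h1]
    let g : C_c(GR, ℝ) := ⟨⟨fun x => f (T x), f.continuous.comp T.continuous⟩,
      f.hasCompactSupport.comp_homeomorph T⟩
    have h2 := hν g
    have h3 := hν f
    refine tendsto_nhds_unique h2 ?_
    refine h3.congr ?_
    intro m
    congr 1
    have h4 : ∫ x, f x ∂((rho m).map T) = ∫ x, f (T x) ∂(rho m) :=
      T.isClosedEmbedding.measurableEmbedding.integral_map f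
    rw [hT m] at h4
    exact h4
  have hL : ∀ s : Fin 3 → ℝ, ν.map (fun g => dg s * g) = ν := fun s =>
    hinv (Homeomorph.mulLeft (dg s)) (fun m => (hINV m).1 s)
  have hRt : ∀ γ : GZ, ν.map (fun g => g * toR γ) = ν := fun γ =>
    hinv (Homeomorph.mulRight (toR γ)) (fun m => (hINV m).2 γ)
  have hcont : ∀ i : Fin 3, Continuous (fun g : GR => ent g i) := fun i =>
    (continuous_apply i).comp isOpenEmbedding_ent.continuous
  -- null sets
  have hnull : ∀ E : Set V3, volume E = 0 → ν {g : GR | ∀ i, ent g i ∈ E} = 0 := by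
    intro E hE
    set E' := toMeasurable volume E with hE'
    have hE'0 : volume E' = 0 := by rw [hE', measure_toMeasurable, hE]
    have hAm : MeasurableSet {g : GR | ∀ i, ent g i ∈ E'} := by
      have : {g : GR | ∀ i, ent g i ∈ E'} = ⋂ i, (fun g : GR => ent g i) ⁻¹' E' := by
        ext g; simp
      rw [this]
      exact MeasurableSet.iInter (fun i => (hcont i).measurable (measurableSet_toMeasurable _ _))
    refine measure_mono_null (t := {g : GR | ∀ i, ent g i ∈ E'})
      (fun g hg i => subset_toMeasurable _ _ (hg i)) ?_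
    by_contra hne
    obtain ⟨L, hLA, hLc, hLpos⟩ := hAm.exists_lt_isCompact (μ := ν) (pos_iff_ne_zero.2 hne)
    set EL : Set V3 := ⋃ i, (fun g : GR => ent g i) '' L with hEL
    have hELc : IsCompact EL := isCompact_iUnion (fun i => hLc.image (hcont i))
    have hEL0 : volume EL = 0 := by
      refine measure_mono_null ?_ hE'0
      rw [hEL]
      apply Set.iUnion_subset
      rintro i _ ⟨g, hg, rfl⟩
      exact hLA hg i
    have hELz : (0 : V3) ∉ EL := by
      rw [hEL]
      simp only [Set.mem_iUnion, Set.mem_image, not_exists, not_and]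
      intro i g _ h0
      have hd : Matrix.det (g : MR) = 0 := by
        apply Matrix.det_eq_zero_of_row_eq_zero i
        intro j
        exact congrFun h0 j
      exact ((Matrix.isUnit_iff_isUnit_det _).1 g.isUnit).ne_zero hd
    obtain ⟨K, hK, hLK⟩ := exists_compact_superset hLc
    have hνL : ν L ≠ ∞ := hLc.measure_lt_top.ne
    have hνLpos : 0 < (ν L).toReal := ENNReal.toReal_pos hLpos.ne' hνL
    obtain ⟨O, hO, hELO, hev5⟩ := hP5 K EL hK hELc hEL0 hELz ((ν L).toReal / 2) (by positivity)
    set V : Set GR := interior K ∩ {g | ∀ i, ent g i ∈ O} with hV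
    have hVo : IsOpen V := by
      apply isOpen_interior.inter
      have : {g : GR | ∀ i, ent g i ∈ O} = ⋂ i, (fun g : GR => ent g i) ⁻¹' O := by
        ext g; simp
      rw [this]
      exact isOpen_iInter_of_finite (fun i => hO.preimage (hcont i))
    have hLV : L ⊆ V := by
      intro g hg
      refine ⟨hLK hg, ?_⟩
      intro i
      exact hELO (Set.mem_iUnion.2 ⟨i, g, hg, rfl⟩)
    obtain ⟨f, hf1, hf0, hfp, hfl⟩ := exists_cc hLc hVo hLV
    have hle : ∫ x, f x ∂ν ≤ (ν L).toReal / 2 := by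
      refine le_of_tendsto (hν f) ?_
      have h5 : ∀ᶠ m : ℕ in (U : Filter ℕ), rho m (K ∩ {g | ∀ i, ent g i ∈ O}) ≤
        ENNReal.ofReal ((ν L).toReal / 2 * Zm m) := hU hev5
      filter_upwards [hev, h5] with m hm h5m
      have := hfin m hm
      have hZ := Zm_pos hm
      rw [div_le_iff₀ hZ]
      have hVle : rho m V ≤ ENNReal.ofReal ((ν L).toReal / 2 * Zm m) :=
        (measure_mono (Set.inter_subset_inter_left _ interior_subset)).trans h5m
      refine (cc_integral_le f hf0 hfl (ne_top_of_le_ne_top ENNReal.ofReal_ne_top hVle)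
        hVo.measurableSet).trans ?_
      exact ENNReal.toReal_le_of_le_ofReal (by positivity) hVle
    have hge : (ν L).toReal ≤ ∫ x, f x ∂ν :=
      cc_le_integral f hf1 hfp hLc.measurableSet hνL
    linarith
  obtain ⟨κ, hκ⟩ := hHOPF ν inferInstance hL hRt hnull
  refine ⟨κ, ?_, ?_⟩
  · rcases eq_or_lt_of_le κ.2 with h0 | h0
    · exfalso
      obtain ⟨K, c, hK, hc, hev4⟩ := hP4
      obtain ⟨f, hf1, hf0, hfp, hfl⟩ := exists_cc hK isOpen_univ (Set.subset_univ K)
      have hge : c ≤ ∫ x, f x ∂ν := by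
        refine ge_of_tendsto (hν f) ?_
        have h5 : ∀ᶠ m : ℕ in (U : Filter ℕ), ENNReal.ofReal (c * Zm m) ≤ rho m K := hU hev4
        filter_upwards [hev, h5] with m hm h5m
        have := hfin m hm
        have hZ := Zm_pos hm
        rw [le_div_iff₀ hZ]
        refine le_trans ?_ (cc_le_integral f hf1 hfp hK.measurableSet hK.measure_lt_top.ne)
        exact (ENNReal.ofReal_le_iff_le_toReal hK.measure_lt_top.ne).1 h5m
      have hz : κ = 0 := by
        apply NNReal.eq
        exact h0.symm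
      rw [hκ, hz, zero_smul] at hge
      simp at hge
      linarith
    · exact h0
  · intro f
    have := hν f
    rw [hκ, integral_smul_nnreal_measure] at this
    exact this

theorem t_LIM (hHAAR : T_HAAR) (hP3 : T_P3) (hP4 : T_P4) (hP5 : T_P5) (hINV : T_INV)
    (hHOPF : T_HOPF) : T_LIM := by
  intro U hU
  obtain ⟨κ, hκ, hlim⟩ := limit_haar hP3 hP4 hP5 hINV hHOPF U hU
  refine ⟨κ, hκ, ?_⟩
  intro W K hK hWK hfr
  have hHa := hHAAR.2.2
  have hneBot : (U : Filter ℕ).NeBot := U.neBot
  have hev : ∀ᶠ m : ℕ in (U : Filter ℕ), 2 ≤ m := hU (eventually_ge_atTop 2)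
  have hfin : ∀ m, 2 ≤ m → IsFiniteMeasureOnCompacts (rho m) := by
    intro m hm
    refine ⟨fun K hK => ?_⟩
    obtain ⟨C, hC⟩ := hP3 K hK
    exact lt_of_le_of_lt (hC m hm) ENNReal.ofReal_lt_top
  have hclc : IsCompact (closure W) := hK.of_isClosed_subset isClosed_closure
    (closure_minimal hWK hK.isClosed)
  have hclfin : haarG (closure W) ≠ ∞ := hclc.measure_lt_top.ne
  have hWfin : haarG W ≠ ∞ := ne_top_of_le_ne_top hclfin (measure_mono subset_closure)
  have hcl : haarG (closure W) ≤ haarG (interior W) := by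
    have : closure W ⊆ interior W ∪ frontier W := by
      rw [closure_eq_interior_union_frontier]
    calc haarG (closure W) ≤ haarG (interior W ∪ frontier W) := measure_mono this
      _ ≤ haarG (interior W) + haarG (frontier W) := measure_union_le _ _
      _ = haarG (interior W) := by rw [hfr, add_zero]
  have hintW : haarG (interior W) = haarG W :=
    le_antisymm (measure_mono interior_subset) ((measure_mono subset_closure).trans hcl)
  have hclW : haarG (closure W) = haarG W :=
    le_antisymm (hcl.trans (measure_mono interior_subset)) (measure_mono subset_closure)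
  have hmW : ∀ m, 2 ≤ m → rho m W ≠ ∞ := by
    intro m hm
    have := hfin m hm
    exact ne_top_of_le_ne_top hK.measure_lt_top.ne (measure_mono hWK)
  rw [tendsto_order]
  refine ⟨?_, ?_⟩
  · intro a ha
    -- lower bound
    rcases lt_or_ge a 0 with ha0 | ha0
    · filter_upwards [hev] with m hm
      exact lt_of_lt_of_le ha0 (div_nonneg ENNReal.toReal_nonneg (Zm_pos hm).le)
    obtain ⟨b, hab, hb, hb0⟩ : ∃ b : ℝ, a < κ * b ∧ b < (haarG W).toReal ∧ 0 ≤ b := by
      refine ⟨(a / κ + (haarG W).toReal) / 2, ?_, ?_, by positivity⟩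
      · have : a / κ < (haarG W).toReal := by rwa [div_lt_iff₀' hκ]
        have h2 : a / κ < (a / κ + (haarG W).toReal) / 2 := by linarith
        rwa [div_lt_iff₀' hκ] at h2
      · have : a / κ < (haarG W).toReal := by rwa [div_lt_iff₀' hκ]
        linarith
    have hr : ENNReal.ofReal b < haarG (interior W) := by
      rw [hintW]
      exact (ENNReal.ofReal_lt_iff_lt_toReal hb0 hWfin).2 hb
    obtain ⟨L, hLW, hLc, hLb⟩ := isOpen_interior.exists_lt_isCompact hr
    obtain ⟨f, hf1, hf0, hfp, hfl⟩ := exists_cc hLc isOpen_interior hLW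
    have h1 : κ * b < κ * ∫ x, f x ∂haarG := by
      apply mul_lt_mul_of_pos_left _ hκ
      refine lt_of_lt_of_le ?_ (cc_le_integral f hf1 hfp hLc.measurableSet hLc.measure_lt_top.ne)
      exact (ENNReal.ofReal_lt_iff_lt_toReal hb0 hLc.measure_lt_top.ne).1 hLb
    have h2 := (tendsto_order.1 (hlim f)).1 a (hab.trans h1)
    filter_upwards [hev, h2] with m hm h2m
    have := hfin m hm
    refine lt_of_lt_of_le h2m ?_
    apply div_le_div_of_nonneg_right _ (Zm_pos hm).le
    refine (cc_integral_le f hf0 hfl (ne_top_of_le_ne_top (hmW m hm)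
      (measure_mono interior_subset)) isOpen_interior.measurableSet).trans ?_
    exact ENNReal.toReal_mono (hmW m hm) (measure_mono interior_subset)
  · intro a ha
    -- upper bound
    obtain ⟨b, hab, hb⟩ : ∃ b : ℝ, κ * b < a ∧ (haarG W).toReal < b := by
      refine ⟨(a / κ + (haarG W).toReal) / 2, ?_, ?_⟩
      · have : (haarG W).toReal < a / κ := by rwa [lt_div_iff₀' hκ]
        have h2 : (a / κ + (haarG W).toReal) / 2 < a / κ := by linarith
        rwa [lt_div_iff₀' hκ] at h2
      · have : (haarG W).toReal < a / κ := by rwa [lt_div_iff₀' hκ]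
        linarith
    have hr : haarG (closure W) < ENNReal.ofReal b := by
      rw [hclW]
      exact (ENNReal.lt_ofReal_iff_toReal_lt hWfin).2 hb
    obtain ⟨O, hWO, hO, hOb⟩ := Set.exists_isOpen_lt_of_lt (closure W) _ hr
    obtain ⟨f, hf1, hf0, hfp, hfl⟩ := exists_cc hclc hO hWO
    have h1 : κ * ∫ x, f x ∂haarG < κ * b := by
      apply mul_lt_mul_of_pos_left _ hκ
      refine lt_of_le_of_lt (cc_integral_le f hf0 hfl (ne_top_of_lt hOb) hO.measurableSet) ?_
      exact (ENNReal.lt_ofReal_iff_toReal_lt (ne_top_of_lt hOb)).1 hOb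
    have h2 := (tendsto_order.1 (hlim f)).2 a (h1.trans hab)
    filter_upwards [hev, h2] with m hm h2m
    have := hfin m hm
    refine lt_of_le_of_lt ?_ h2m
    apply div_le_div_of_nonneg_right _ (Zm_pos hm).le
    refine le_trans ?_ (cc_le_integral f hf1 hfp hclc.measurableSet hclc.measure_lt_top.ne)
    exact ENNReal.toReal_mono hclc.measure_lt_top.ne (measure_mono subset_closure)

end KF
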