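import Mathlib
import Pool.Agent.H22.KF.Targets
import Pool.Agent.H22.KF.INV

/-!
# MP_3fd637_nt : module P34
-/

open MeasureTheory Filter Topology
open scoped ENNReal

namespace KF

theorem orb_apply (φ : Frame) {A : Set GR} (hA : MeasurableSet A) :
    orb φ A = volume {s : Fin 3 → ℝ | dg s * φ.R ∈ A} := by
  unfold orb
  rw [Measure.map_apply (continuous_dg_mul φ.R).measurable hA]
  rfl

theorem rho_apply (m : ℕ) {A : Set GR} (hA : MeasurableSet A) :
    rho m A = ∑' φ : Frame, bm m φ.M * orb φ A := by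
  unfold rho
  rw [Measure.sum_apply _ hA]
  refine tsum_congr ?_
  intro φ
  rw [Measure.smul_apply, smul_eq_mul]

theorem nrm_smul (c : ℝ) (x : V3) : nrm (fun i => c * x i) = |c| * nrm x := by
  unfold nrm
  rw [← Real.sqrt_sq_eq_abs, ← Real.sqrt_mul (sq_nonneg c), Finset.mul_sum]
  congr 1
  refine Finset.sum_congr rfl ?_
  intro i _
  ring

theorem ent_dg (s : Fin 3 → ℝ) (φ : Frame) (i : Fin 3) :
    ent (dg s * φ.R) i = fun j => Real.exp (s i) * cst (φ.v i) j := by
  funext j
  show ((dg s * φ.R : GR) : MR) i j = _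
  rw [dg_mul_apply, Frame.R_apply]
  rfl

theorem nrm_ent_dg (s : Fin 3 → ℝ) (φ : Frame) (i : Fin 3) :
    nrm (ent (dg s * φ.R) i) = Real.exp (s i) * nz (φ.v i) := by
  rw [ent_dg, nrm_smul, abs_of_pos (Real.exp_pos _)]
  rfl

theorem detR_dg (s : Fin 3 → ℝ) (φ : Frame) :
    detR (dg s * φ.R) = (∏ i, Real.exp (s i)) * Matrix.det φ.Rm := by
  unfold detR
  rw [Units.val_mul, Matrix.det_mul, dg_coe, Matrix.det_diagonal]
  rfl

theorem nrm_pos_of_ne {x : V3} (hx : x ≠ 0) : 0 < nrm x := by
  unfold nrm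
  apply Real.sqrt_pos.2
  by_contra h
  push Not at h
  have h0 : ∑ i, x i ^ 2 = 0 := le_antisymm h (Finset.sum_nonneg (fun i _ => sq_nonneg _))
  rw [Finset.sum_eq_zero_iff_of_nonneg (fun i _ => sq_nonneg _)] at h0
  apply hx
  funext i
  have := h0 i (Finset.mem_univ i)
  simpa using this

theorem ent_ne (g : GR) (i : Fin 3) : ent g i ≠ 0 := by
  intro h0
  have hd : Matrix.det (g : MR) = 0 := by
    apply Matrix.det_eq_zero_of_row_eq_zero i
    intro j
    exact congrFun h0 j
  exact ((Matrix.isUnit_iff_isUnit_det _).1 g.isUnit).ne_zero hd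

theorem detR_ne (g : GR) : detR g ≠ 0 :=
  ((Matrix.isUnit_iff_isUnit_det _).1 g.isUnit).ne_zero

theorem cst_ne {x : VZ} (hx : x ≠ 0) : cst x ≠ 0 := by
  intro h
  apply hx
  funext i
  have := congrFun h i
  simpa [cst] using this

theorem nz_pos (φ : Frame) (i : Fin 3) : 0 < nz (φ.v i) := nrm_pos_of_ne (cst_ne (φ.v_ne i))

theorem continuous_nrm : Continuous nrm := by
  unfold nrm
  exact Real.continuous_sqrt.comp (continuous_finsetSum _ (fun i _ => (continuous_apply i).pow 2))

theorem continuous_ent_row (i : Fin 3) : Continuous (fun g : GR => ent g i) :=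
  (continuous_apply i).comp isOpenEmbedding_ent.continuous

theorem continuous_detR : Continuous detR := by
  unfold detR
  exact Continuous.matrix_det isEmbedding_coe.continuous

/-- bounds on a compact set -/
theorem compact_bounds {K : Set GR} (hK : IsCompact K) :
    ∃ c r R : ℝ, 0 < c ∧ 0 < r ∧ r ≤ R ∧ ∀ g ∈ K, (∀ i, r ≤ nrm (ent g i) ∧ nrm (ent g i) ≤ R) ∧
      c * (nrm (ent g 0) * nrm (ent g 1) * nrm (ent g 2)) ≤ |detR g| := by
  obtain ⟨C1, hC1⟩ := hK.exists_bound_of_continuousOn (f := fun g : GR => (detR g)⁻¹)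
    ((continuous_detR.inv₀ detR_ne).continuousOn)
  have h2 : ∀ i, ∃ C : ℝ, ∀ g ∈ K, ‖nrm (ent g i)‖ ≤ C := fun i =>
    hK.exists_bound_of_continuousOn ((continuous_nrm.comp (continuous_ent_row i)).continuousOn)
  have h3 : ∀ i, ∃ C : ℝ, ∀ g ∈ K, ‖(nrm (ent g i))⁻¹‖ ≤ C := fun i =>
    hK.exists_bound_of_continuousOn (((continuous_nrm.comp (continuous_ent_row i)).inv₀
      (fun g => (nrm_pos_of_ne (ent_ne g i)).ne')).continuousOn)
  choose C2 hC2 using h2
  choose C3 hC3 using h3
  set R : ℝ := 1 + ∑ i, |C2 i| with hR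
  set S : ℝ := 1 + ∑ i, |C3 i| with hS
  have hR1 : 1 ≤ R := by
    have : 0 ≤ ∑ i, |C2 i| := Finset.sum_nonneg (fun i _ => abs_nonneg _)
    linarith
  have hS1 : 1 ≤ S := by
    have : 0 ≤ ∑ i, |C3 i| := Finset.sum_nonneg (fun i _ => abs_nonneg _)
    linarith
  set D : ℝ := 1 + |C1| with hD
  have hD1 : 1 ≤ D := by
    have := abs_nonneg C1
    linarith
  refine ⟨1 / (D * R ^ 3), 1 / S, R, by positivity, by positivity, ?_, ?_⟩
  · calc 1 / S ≤ 1 := by
          rw [div_le_one (by positivity)]; exact hS1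
      _ ≤ R := hR1
  · intro g hg
    have hn : ∀ i, 1 / S ≤ nrm (ent g i) ∧ nrm (ent g i) ≤ R := by
      intro i
      have hp := nrm_pos_of_ne (ent_ne g i)
      constructor
      · have h := hC3 i g hg
        rw [Real.norm_eq_abs, abs_of_pos (inv_pos.2 hp)] at h
        have h' : (nrm (ent g i))⁻¹ ≤ S := by
          calc (nrm (ent g i))⁻¹ ≤ C3 i := h
            _ ≤ |C3 i| := le_abs_self _
            _ ≤ ∑ i, |C3 i| := Finset.single_le_sum (f := fun i => |C3 i|)
                (fun i _ => abs_nonneg _) (Finset.mem_univ i)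
            _ ≤ S := by rw [hS]; linarith
        rw [one_div]
        exact inv_le_of_inv_le₀ hp h'
      · have h := hC2 i g hg
        rw [Real.norm_eq_abs, abs_of_pos hp] at h
        calc nrm (ent g i) ≤ C2 i := h
            _ ≤ |C2 i| := le_abs_self _
            _ ≤ ∑ i, |C2 i| := Finset.single_le_sum (f := fun i => |C2 i|)
                (fun i _ => abs_nonneg _) (Finset.mem_univ i)
            _ ≤ R := by rw [hR]; linarith
    refine ⟨hn, ?_⟩
    have hdp : 0 < |detR g| := abs_pos.2 (detR_ne g)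
    have h1 : |detR g|⁻¹ ≤ D := by
      have h := hC1 g hg
      rw [norm_inv, Real.norm_eq_abs] at h
      calc |detR g|⁻¹ ≤ C1 := h
        _ ≤ |C1| := le_abs_self _
        _ ≤ D := by rw [hD]; linarith
    have h2 : 1 / D ≤ |detR g| := by
      rw [one_div]
      exact inv_le_of_inv_le₀ hdp h1
    have h3 : nrm (ent g 0) * nrm (ent g 1) * nrm (ent g 2) ≤ R ^ 3 := by
      have p0 := nrm_pos_of_ne (ent_ne g 0)
      have p1 := nrm_pos_of_ne (ent_ne g 1)
      have p2 := nrm_pos_of_ne (ent_ne g 2)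
      calc nrm (ent g 0) * nrm (ent g 1) * nrm (ent g 2) ≤ R * R * R := by
            apply mul_le_mul (mul_le_mul (hn 0).2 (hn 1).2 p1.le (by linarith)) (hn 2).2 p2.le
            positivity
        _ = R ^ 3 := by ring
    calc 1 / (D * R ^ 3) * (nrm (ent g 0) * nrm (ent g 1) * nrm (ent g 2))
        ≤ 1 / (D * R ^ 3) * R ^ 3 := mul_le_mul_of_nonneg_left h3 (by positivity)
      _ = 1 / D := by field_simp
      _ ≤ |detR g| := h2

theorem ang_iff (c : ℝ) (s : Fin 3 → ℝ) (φ : Frame) :
    c * (nrm (ent (dg s * φ.R) 0) * nrm (ent (dg s * φ.R) 1) * nrm (ent (dg s * φ.R) 2))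
      ≤ |detR (dg s * φ.R)| ↔ φ.Ang c := by
  rw [nrm_ent_dg, nrm_ent_dg, nrm_ent_dg, detR_dg, abs_mul, Fin.prod_univ_three,
    abs_of_pos (by positivity : 0 < Real.exp (s 0) * Real.exp (s 1) * Real.exp (s 2))]
  unfold Frame.Ang
  have hE : 0 < Real.exp (s 0) * Real.exp (s 1) * Real.exp (s 2) := by positivity
  have : c * (Real.exp (s 0) * nz (φ.v 0) * (Real.exp (s 1) * nz (φ.v 1)) *
      (Real.exp (s 2) * nz (φ.v 2))) = (Real.exp (s 0) * Real.exp (s 1) * Real.exp (s 2)) *
      (c * (nz (φ.v 0) * nz (φ.v 1) * nz (φ.v 2))) := by ring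
  rw [this]
  exact mul_le_mul_iff_right₀ hE

/-- bound for the orbit measure of a compact set -/
theorem orb_compact_le {K : Set GR} (hKm : MeasurableSet K) {c r R : ℝ} (hr : 0 < r) (hrR : r ≤ R)
    (hb : ∀ g ∈ K, (∀ i, r ≤ nrm (ent g i) ∧ nrm (ent g i) ≤ R) ∧
      c * (nrm (ent g 0) * nrm (ent g 1) * nrm (ent g 2)) ≤ |detR g|) (φ : Frame) :
    orb φ K ≤ Set.indicator {φ : Frame | φ.Ang c}
      (fun _ => ENNReal.ofReal (Real.log R - Real.log r) ^ 3) φ := by
  rw [orb_apply φ hKm]
  by_cases hφ : φ.Ang c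
  · rw [Set.indicator_of_mem (show φ ∈ {φ : Frame | φ.Ang c} from hφ)]
    have hsub : {s : Fin 3 → ℝ | dg s * φ.R ∈ K} ⊆
        Set.Icc (fun i => Real.log r - Real.log (nz (φ.v i)))
          (fun i => Real.log R - Real.log (nz (φ.v i))) := by
      intro s hs
      have key : ∀ i, Real.log r - Real.log (nz (φ.v i)) ≤ s i ∧
          s i ≤ Real.log R - Real.log (nz (φ.v i)) := by
       intro i
       have h := (hb _ hs).1 i
       rw [nrm_ent_dg] at h
       have hv := nz_pos φ i
       constructor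
       · have := Real.log_le_log hr h.1
         rw [Real.log_mul (Real.exp_pos _).ne' hv.ne', Real.log_exp] at this
         linarith
       · have := Real.log_le_log (by positivity) h.2
         rw [Real.log_mul (Real.exp_pos _).ne' hv.ne', Real.log_exp] at this
         linarith
      exact ⟨fun i => (key i).1, fun i => (key i).2⟩
    refine (measure_mono hsub).trans ?_
    rw [Real.volume_Icc_pi, Fin.prod_univ_three]
    have e : ∀ i : Fin 3, Real.log R - Real.log (nz (φ.v i)) -
      (Real.log r - Real.log (nz (φ.v i))) = Real.log R - Real.log r := fun i => by ring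
    rw [e 0, e 1, e 2]
    exact le_of_eq (by ring)
  · rw [Set.indicator_of_notMem (show φ ∉ {φ : Frame | φ.Ang c} from hφ)]
    have : {s : Fin 3 → ℝ | dg s * φ.R ∈ K} = ∅ := by
      ext s
      simp only [Set.mem_ofPred_eq, Set.mem_empty_iff_false, iff_false]
      intro hs
      exact hφ ((ang_iff c s φ).1 (hb _ hs).2)
    rw [this, measure_empty]

theorem t_P3 (hS1 : T_S1) : T_P3 := by
  intro K hK
  obtain ⟨c, r, R, hc, hr, hrR, hb⟩ := compact_bounds hK
  obtain ⟨C, hC⟩ := hS1 c hc
  set L : ℝ := (Real.log R - Real.log r) with hL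
  refine ⟨L ^ 3 * C, ?_⟩
  intro m hm
  have hL0 : 0 ≤ L := by
    rw [hL]
    have := Real.log_le_log hr hrR
    linarith
  rw [rho_apply m hK.measurableSet]
  calc ∑' φ : Frame, bm m φ.M * orb φ K
      ≤ ∑' φ : Frame, Set.indicator {φ : Frame | φ.Ang c} (fun φ => bm m φ.M) φ *
          ENNReal.ofReal L ^ 3 := by
        apply ENNReal.tsum_le_tsum
        intro φ
        have h := orb_compact_le hK.measurableSet hr hrR hb φ
        by_cases hφ : φ ∈ {φ : Frame | φ.Ang c}
        · rw [Set.indicator_of_mem hφ] at h ⊢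
          exact mul_le_mul_right h _
        · rw [Set.indicator_of_notMem hφ] at h ⊢
          have : orb φ K = 0 := le_antisymm h zero_le
          rw [this]; simp
    _ = (∑' φ : Frame, Set.indicator {φ : Frame | φ.Ang c} (fun φ => bm m φ.M) φ) *
          ENNReal.ofReal L ^ 3 := ENNReal.tsum_mul_right
    _ ≤ ENNReal.ofReal (C * Zm m) * ENNReal.ofReal L ^ 3 := mul_le_mul_left (hC m hm) _
    _ = ENNReal.ofReal (L ^ 3 * C * Zm m) := by
        rw [← ENNReal.ofReal_pow hL0, mul_comm, ← ENNReal.ofReal_mul (by positivity)]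
        congr 1
        ring

theorem t_P4 (hS4 : T_S4) : T_P4 := by
  obtain ⟨c0, c, hc0, hc, hev⟩ := hS4
  set K' : Set (Fin 3 → V3) := {x | (∀ i, 1 ≤ nrm (x i) ∧ nrm (x i) ≤ Real.exp 1) ∧
    c0 * (nrm (x 0) * nrm (x 1) * nrm (x 2)) ≤ |Matrix.det (Matrix.of x)|} with hK'
  have hcr : ∀ i : Fin 3, Continuous (fun x : Fin 3 → V3 => nrm (x i)) := fun i =>
    continuous_nrm.comp (continuous_apply i)
  have hcd : Continuous (fun x : Fin 3 → V3 => |Matrix.det (Matrix.of x)|) := by
    apply Continuous.abs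
    apply Continuous.matrix_det
    exact continuous_id
  have hcl : IsClosed K' := by
    rw [hK']
    have h1 : {x : Fin 3 → V3 | (∀ i, 1 ≤ nrm (x i) ∧ nrm (x i) ≤ Real.exp 1) ∧
        c0 * (nrm (x 0) * nrm (x 1) * nrm (x 2)) ≤ |Matrix.det (Matrix.of x)|} =
        (⋂ i, {x : Fin 3 → V3 | 1 ≤ nrm (x i)} ∩ {x : Fin 3 → V3 | nrm (x i) ≤ Real.exp 1}) ∩
        {x : Fin 3 → V3 | c0 * (nrm (x 0) * nrm (x 1) * nrm (x 2)) ≤
          |Matrix.det (Matrix.of x)|} := by
      ext x; simp
    rw [h1]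
    apply IsClosed.inter
    · exact isClosed_iInter (fun i => (isClosed_le continuous_const (hcr i)).inter
        (isClosed_le (hcr i) continuous_const))
    · exact isClosed_le (continuous_const.mul (((hcr 0).mul (hcr 1)).mul (hcr 2))) hcd
  have hbd : K' ⊆ Set.pi Set.univ (fun _ : Fin 3 => Set.pi Set.univ (fun _ : Fin 3 =>
      Set.Icc (-Real.exp 1) (Real.exp 1))) := by
    intro x hx i _ j _
    have h := (hx.1 i).2
    have h1 : |x i j| ≤ nrm (x i) := by
      unfold nrm
      apply Real.abs_le_sqrt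
      exact Finset.single_le_sum (f := fun j => x i j ^ 2) (fun j _ => sq_nonneg _)
        (Finset.mem_univ j)
    exact abs_le.1 (h1.trans h)
  have hKc : IsCompact K' := (isCompact_univ_pi (fun _ => isCompact_univ_pi
    (fun _ => isCompact_Icc))).of_isClosed_subset hcl hbd
  have hrange : K' ⊆ Set.range ent := by
    intro x hx
    have hd : Matrix.det (Matrix.of x) ≠ 0 := by
      intro h0
      have h := hx.2
      rw [h0, abs_zero] at h
      have p := fun i => (hx.1 i).1
      have : 0 < c0 * (nrm (x 0) * nrm (x 1) * nrm (x 2)) := by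
        have p0 := p 0; have p1 := p 1; have p2 := p 2
        have : 0 < nrm (x 0) := by linarith
        have : 0 < nrm (x 1) := by linarith
        have : 0 < nrm (x 2) := by linarith
        positivity
      linarith
    exact ⟨Matrix.GeneralLinearGroup.mkOfDetNeZero (Matrix.of x) hd, rfl⟩
  have hKG : IsCompact (ent ⁻¹' K') :=
    (isOpenEmbedding_ent.isEmbedding.isInducing.isCompact_preimage_iff hrange).2 hKc
  refine ⟨ent ⁻¹' K', c, hKG, hc, ?_⟩
  filter_upwards [hev] with m hm
  refine hm.trans ?_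
  rw [rho_apply m hKG.measurableSet]
  apply ENNReal.tsum_le_tsum
  intro φ
  by_cases hφ : φ ∈ {φ : Frame | φ.Ang c0}
  · rw [Set.indicator_of_mem hφ]
    have horb : 1 ≤ orb φ (ent ⁻¹' K') := by
      rw [orb_apply φ hKG.measurableSet]
      have hsub : Set.Icc (fun i => - Real.log (nz (φ.v i)))
          (fun i => 1 - Real.log (nz (φ.v i))) ⊆
          {s : Fin 3 → ℝ | dg s * φ.R ∈ ent ⁻¹' K'} := by
        intro s hs
        have h1 := fun i => hs.1 i
        have h2 := fun i => hs.2 i
        refine ⟨?_, ?_⟩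
        · intro i
          rw [nrm_ent_dg]
          have hv := nz_pos φ i
          have e : Real.exp (s i) * nz (φ.v i) = Real.exp (s i + Real.log (nz (φ.v i))) := by
            rw [Real.exp_add, Real.exp_log hv]
          rw [e]
          have h1i : - Real.log (nz (φ.v i)) ≤ s i := h1 i
          have h2i : s i ≤ 1 - Real.log (nz (φ.v i)) := h2 i
          constructor
          · rw [← Real.exp_zero]
            apply Real.exp_le_exp.2
            linarith
          · apply Real.exp_le_exp.2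
            linarith
        · exact (ang_iff c0 s φ).2 hφ
      refine le_trans ?_ (measure_mono hsub)
      rw [Real.volume_Icc_pi, Fin.prod_univ_three]
      have e : ∀ i : Fin 3, 1 - Real.log (nz (φ.v i)) - -Real.log (nz (φ.v i)) = 1 :=
        fun i => by ring
      rw [e 0, e 1, e 2]
      simp
    calc bm m φ.M = bm m φ.M * 1 := (mul_one _).symm
      _ ≤ bm m φ.M * orb φ (ent ⁻¹' K') := mul_le_mul_right horb _
  · rw [Set.indicator_of_notMem hφ]
    exact zero_le

end KF
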