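import Mathlib
import Pool.Agent.H22.KF.P34

/-!
# MP_3fd637_nt : module P5
-/

open MeasureTheory Filter Topology
open scoped ENNReal

namespace KF

/-- separated finite sets in a set with a small thickening are small -/
theorem sep_card {E : Set V3} {s δ : ℝ} (hs : 0 < s)
    (hvol : volume (Metric.cthickening s E) ≤ ENNReal.ofReal δ) (Q : Finset V3)
    (hQE : ∀ q ∈ Q, q ∈ E) (hsep : ∀ q ∈ Q, ∀ q' ∈ Q, q ≠ q' → s ≤ dist q q') (hδ : 0 ≤ δ) :
    (Q.card : ℝ) * s ^ 3 ≤ δ := by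
  have hdisj : (Q : Set V3).PairwiseDisjoint (fun q => Metric.ball q (s / 2)) := by
    intro q hq q' hq' hne
    rw [Function.onFun]
    apply Metric.ball_disjoint_ball
    have := hsep q hq q' hq' hne
    linarith
  have h1 : volume (⋃ q ∈ Q, Metric.ball q (s / 2)) = ∑ q ∈ Q, volume (Metric.ball q (s / 2)) :=
    measure_biUnion_finset hdisj (fun q _ => Metric.isOpen_ball.measurableSet)
  have h2 : ∀ q : V3, volume (Metric.ball q (s / 2)) = ENNReal.ofReal (s ^ 3) := by
    intro q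
    rw [Real.volume_pi_ball q (by positivity)]
    congr 1
    simp only [Fintype.card_fin]
    ring
  have h3 : (⋃ q ∈ Q, Metric.ball q (s / 2)) ⊆ Metric.cthickening s E := by
    apply Set.iUnion₂_subset
    intro q hq
    refine (Metric.ball_subset_closedBall.trans ?_)
    refine (Metric.closedBall_subset_closedBall (by linarith : s / 2 ≤ s)).trans ?_
    exact Metric.closedBall_subset_cthickening (hQE q hq) s
  have h4 := (measure_mono h3).trans hvol
  rw [h1, Finset.sum_congr rfl (fun q _ => h2 q), Finset.sum_const, nsmul_eq_mul,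
    ← ENNReal.ofReal_natCast, ← ENNReal.ofReal_mul (by positivity)] at h4
  exact (ENNReal.ofReal_le_ofReal_iff hδ).1 h4

theorem exists_cover {E : Set V3} (hE : IsCompact E) (hE0 : volume E = 0) {δ s0 : ℝ} (hδ : 0 < δ)
    (hs0 : 0 < s0) : ∃ (s : ℝ) (Q : Finset V3), 0 < s ∧ s ≤ s0 ∧ (∀ q ∈ Q, q ∈ E) ∧
      (Q.card : ℝ) * s ^ 3 ≤ δ ∧ E ⊆ ⋃ q ∈ Q, Metric.ball q s := by
  have ht := tendsto_measure_cthickening_of_isCompact (μ := (volume : Measure V3)) hE
  rw [hE0] at ht
  have hev : ∀ᶠ s : ℝ in 𝓝 0, volume (Metric.cthickening s E) < ENNReal.ofReal δ :=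
    ht.eventually (gt_mem_nhds (ENNReal.ofReal_pos.2 hδ))
  obtain ⟨ε, hε, hball⟩ := Metric.eventually_nhds_iff.1 hev
  set s := min (ε / 2) s0 with hs
  have hspos : 0 < s := lt_min (by positivity) hs0
  have hsε : s < ε := lt_of_le_of_lt (min_le_left _ _) (by linarith)
  have hvol : volume (Metric.cthickening s E) ≤ ENNReal.ofReal δ := by
    apply le_of_lt
    apply hball
    rw [dist_zero_right, Real.norm_eq_abs, abs_of_pos hspos]
    exact hsε
  set P : ℕ → Prop := fun n => ∃ Q : Finset V3, Q.card = n ∧ (∀ q ∈ Q, q ∈ E) ∧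
    (∀ q ∈ Q, ∀ q' ∈ Q, q ≠ q' → s ≤ dist q q') with hP
  have hP0 : P 0 := ⟨∅, rfl, by simp, by simp⟩
  obtain ⟨N, hN⟩ := exists_nat_gt (δ / s ^ 3)
  have hPN : ∀ n, P n → n ≤ N := by
    rintro n ⟨Q, hQn, hQE, hsep⟩
    have h := sep_card hspos hvol Q hQE hsep hδ.le
    rw [hQn] at h
    have : (n : ℝ) ≤ δ / s ^ 3 := by rwa [le_div_iff₀ (by positivity)]
    have h2 : (n : ℝ) < N := lt_of_le_of_lt this hN
    exact_mod_cast h2.le
  classical
  obtain ⟨n, hn, hmax⟩ : ∃ n, P n ∧ ∀ k, P k → k ≤ n := by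
    refine ⟨Nat.findGreatest P N, Nat.findGreatest_spec (Nat.zero_le N) hP0, ?_⟩
    intro k hk
    exact Nat.le_findGreatest (hPN k hk) hk
  obtain ⟨Q, hQn, hQE, hsep⟩ := hn
  refine ⟨s, Q, hspos, min_le_right _ _, hQE, sep_card hspos hvol Q hQE hsep hδ.le, ?_⟩
  intro x hx
  by_contra hnot
  simp only [Set.mem_iUnion, Metric.mem_ball, not_exists, not_lt] at hnot
  have hxQ : x ∉ Q := by
    intro h
    have := hnot x h
    rw [dist_self] at this
    linarith
  have hP' : P (n + 1) := by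
    refine ⟨insert x Q, ?_, ?_, ?_⟩
    · rw [Finset.card_insert_of_notMem hxQ, hQn]
    · intro q hq
      rcases Finset.mem_insert.1 hq with rfl | hq
      · exact hx
      · exact hQE q hq
    · intro q hq q' hq' hne
      rcases Finset.mem_insert.1 hq with h | h
      · rcases Finset.mem_insert.1 hq' with h' | h'
        · exact absurd (h.trans h'.symm) hne
        · rw [h]; exact hnot q' h'
      · rcases Finset.mem_insert.1 hq' with h' | h'
        · rw [h', dist_comm]; exact hnot q h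
        · exact hsep q h q' h' hne
  have := hmax _ hP'
  omega

theorem t_P5 (hS5 : T_S5) : T_P5 := by
  intro K E hK hE hE0 hE00 η hη
  obtain ⟨c, r, R, hc, hr, hrR, hb⟩ := compact_bounds hK
  obtain ⟨r1, hr1, hr1E⟩ : ∃ r1 : ℝ, 0 < r1 ∧ ∀ x ∈ E, r1 ≤ ‖x‖ := by
    obtain ⟨B, hB⟩ := hE.exists_bound_of_continuousOn (f := fun x : V3 => ‖x‖⁻¹) (by
      apply ContinuousOn.inv₀ continuous_norm.continuousOn
      intro x hx h
      rw [norm_eq_zero] at h
      exact hE00 (h ▸ hx))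
    refine ⟨(1 + |B|)⁻¹, by positivity, ?_⟩
    intro x hx
    have hx0 : 0 < ‖x‖ := norm_pos_iff.2 (fun h => hE00 (h ▸ hx))
    have h := hB x hx
    rw [norm_inv, norm_norm] at h
    have h2 : ‖x‖⁻¹ ≤ 1 + |B| := h.trans (by have := le_abs_self B; linarith)
    exact inv_le_of_inv_le₀ hx0 h2
  obtain ⟨R1, hR1⟩ := hE.isBounded.exists_norm_le
  obtain ⟨δ, s0, hδ, hs0, hmain⟩ := hS5 c r1 (max r1 R1) η hc hr1 (le_max_left _ _) hη
  obtain ⟨s, Q, hs, hss0, hQE, hQcard, hcov⟩ := exists_cover hE hE0 hδ hs0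
  have hO : IsOpen (⋃ q ∈ Q, Metric.ball q s) := isOpen_biUnion (fun q _ => Metric.isOpen_ball)
  refine ⟨⋃ q ∈ Q, Metric.ball q s, hO, hcov, ?_⟩
  have hev := hmain s Q hs hss0 (fun q hq => ⟨hr1E q (hQE q hq),
    (hR1 q (hQE q hq)).trans (le_max_right _ _)⟩) hQcard
  filter_upwards [hev] with m hm
  refine le_trans ?_ hm
  have hAm : MeasurableSet (K ∩ {g : GR | ∀ i, ent g i ∈ ⋃ q ∈ Q, Metric.ball q s}) := by
    apply hK.measurableSet.inter
    have : {g : GR | ∀ i, ent g i ∈ ⋃ q ∈ Q, Metric.ball q s} =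
        ⋂ i, (fun g : GR => ent g i) ⁻¹' (⋃ q ∈ Q, Metric.ball q s) := by
      ext g; simp
    rw [this]
    exact (isOpen_iInter_of_finite (fun i => hO.preimage (continuous_ent_row i))).measurableSet
  rw [rho_apply m hAm]
  apply ENNReal.tsum_le_tsum
  intro φ
  by_cases hφ : φ.Ang c
  · rw [Set.indicator_of_mem (show φ ∈ {φ : Frame | φ.Ang c} from hφ)]
    apply mul_le_mul_right
    rw [orb_apply φ hAm]
    have hsub : {t : Fin 3 → ℝ | dg t * φ.R ∈
        K ∩ {g : GR | ∀ i, ent g i ∈ ⋃ q ∈ Q, Metric.ball q s}} ⊆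
        Set.pi Set.univ (fun i : Fin 3 => {t : ℝ | (fun j => Real.exp t * ((φ.v i j : ℤ) : ℝ)) ∈
          ⋃ q ∈ Q, Metric.ball q s}) := by
      intro t ht i _
      have h := ht.2 i
      rw [ent_dg] at h
      exact h
    refine (measure_mono hsub).trans ?_
    rw [volume_pi_pi]
    exact le_rfl
  · rw [Set.indicator_of_notMem (show φ ∉ {φ : Frame | φ.Ang c} from hφ)]
    have : orb φ (K ∩ {g : GR | ∀ i, ent g i ∈ ⋃ q ∈ Q, Metric.ball q s}) = 0 := by
      rw [orb_apply φ hAm]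
      have h0 : {t : Fin 3 → ℝ | dg t * φ.R ∈
        K ∩ {g : GR | ∀ i, ent g i ∈ ⋃ q ∈ Q, Metric.ball q s}} = ∅ := by
        ext t
        simp only [Set.mem_ofPred_eq, Set.mem_empty_iff_false, iff_false]
        intro ht
        exact hφ ((ang_iff c t φ).1 (hb _ ht.1).2)
      rw [h0, measure_empty]
    rw [this, mul_zero]

end KF
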