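import Mathlib
import Pool.Agent.H22.KF.Main

/-!
# MP_3fd637_nt : modules S1, S5a, S5
-/

open MeasureTheory Filter Topology
open scoped ENNReal

namespace KF

theorem gp_pos (φ : Frame) : 0 < gp φ.ev := by
  unfold gp
  have h : ∀ i j : Fin 3, i ≠ j → 0 < |((φ.ev i - φ.ev j : ℤ) : ℝ)| := by
    intro i j hij
    apply abs_pos.2
    intro h0
    have h1 : φ.ev i - φ.ev j = 0 := by exact_mod_cast h0
    exact hij (φ.inj (by omega))
  have h1 := h 1 0 (by decide)
  have h2 := h 2 1 (by decide)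
  have h3 := h 2 0 (by decide)
  positivity

theorem bm_le (hL1 : T_L1) : ∃ C : ℝ, 0 ≤ C ∧ ∀ (m : ℕ) (φ : Frame), 2 ≤ m →
    bm m φ.M ≤ ENNReal.ofReal (C * Real.log m ^ 2 * m ^ 3 / gp φ.ev) := by
  classical
  obtain ⟨C, hC⟩ := hL1
  refine ⟨|C|, abs_nonneg _, ?_⟩
  intro m φ hm
  have hg := gp_pos φ
  unfold bm
  rw [ENNReal.tsum_eq_iSup_sum]
  apply iSup_le
  intro t
  have h1 : ∑ γ ∈ t, (if l1 (conjZ γ φ.M) ≤ m then (1 : ℝ≥0∞) else 0)
      = ((t.filter (fun γ => l1 (conjZ γ φ.M) ≤ m)).card : ℝ≥0∞) := by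
    rw [← Finset.sum_filter]
    simp
  rw [h1, ← ENNReal.ofReal_natCast]
  apply ENNReal.ofReal_le_ofReal
  refine (hC m φ (t.filter (fun γ => l1 (conjZ γ φ.M) ≤ m)) hm ?_).trans ?_
  · intro γ hγ
    exact (Finset.mem_filter.1 hγ).2
  · apply div_le_div_of_nonneg_right _ hg.le
    apply mul_le_mul_of_nonneg_right _ (by positivity)
    exact mul_le_mul_of_nonneg_right (le_abs_self C) (by positivity)

theorem bm_ne_zero (hEV3 : T_EV3) {m : ℕ} {φ : Frame} (h : bm m φ.M ≠ 0) : φ.EvLe m := by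
  unfold bm at h
  rw [Ne, ENNReal.tsum_eq_zero] at h
  push Not at h
  obtain ⟨γ, hγ⟩ := h
  have : l1 (conjZ γ φ.M) ≤ m := by
    by_contra hn
    rw [if_neg hn] at hγ
    exact hγ rfl
  exact hEV3 m φ γ this

theorem group_sum (hL1 : T_L1) (hL2 : T_L2) {c : ℝ} (hc : 0 < c) :
    ∃ C : ℝ, 0 ≤ C ∧ ∀ (m : ℕ) (L : Finset (Fin 3 → ℤ)) (s : Finset Frame), 2 ≤ m →
      (∀ φ ∈ s, φ.Ang c ∧ φ.EvLe m ∧ φ.ev ∈ L) →
      ∑ φ ∈ s, bm m φ.M ≤ ENNReal.ofReal (C * (Real.log m ^ 4 * (m : ℝ) ^ 3) * L.card) := by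
  classical
  obtain ⟨C1, hC1, h1⟩ := bm_le hL1
  obtain ⟨C2, h2⟩ := hL2 c hc
  refine ⟨C1 * |C2|, by positivity, ?_⟩
  intro m L s hm hs
  have hmaps : ∀ φ ∈ s, φ.ev ∈ L := fun φ hφ => (hs φ hφ).2.2
  rw [← Finset.sum_fiberwise_of_maps_to hmaps]
  have hl : 0 < Real.log m := Real.log_pos (by exact_mod_cast (by omega : 1 < m))
  have hm0 : (0 : ℝ) < m := by exact_mod_cast (by omega : 0 < m)
  calc ∑ l ∈ L, ∑ φ ∈ s.filter (fun φ => φ.ev = l), bm m φ.M
      ≤ ∑ l ∈ L, ENNReal.ofReal (C1 * |C2| * (Real.log m ^ 4 * (m : ℝ) ^ 3)) := by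
        apply Finset.sum_le_sum
        intro l _
        by_cases hne : (s.filter (fun φ => φ.ev = l)).Nonempty
        · obtain ⟨φ0, hφ0⟩ := hne
          have hφ0' := (Finset.mem_filter.1 hφ0).2
          have hg : 0 < gp l := by rw [← hφ0']; exact gp_pos φ0
          have hcard := h2 m l (s.filter (fun φ => φ.ev = l)) hm (by
            intro φ hφ
            have h := Finset.mem_filter.1 hφ
            exact ⟨h.2, (hs φ h.1).1, (hs φ h.1).2.1⟩)
          calc ∑ φ ∈ s.filter (fun φ => φ.ev = l), bm m φ.M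
              ≤ ∑ φ ∈ s.filter (fun φ => φ.ev = l),
                  ENNReal.ofReal (C1 * Real.log m ^ 2 * m ^ 3 / gp l) := by
                apply Finset.sum_le_sum
                intro φ hφ
                have h := h1 m φ hm
                rwa [(Finset.mem_filter.1 hφ).2] at h
            _ = ENNReal.ofReal ((s.filter (fun φ => φ.ev = l)).card *
                  (C1 * Real.log m ^ 2 * m ^ 3 / gp l)) := by
                rw [Finset.sum_const, nsmul_eq_mul, ← ENNReal.ofReal_natCast,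
                  ← ENNReal.ofReal_mul (by positivity)]
            _ ≤ ENNReal.ofReal (C1 * |C2| * (Real.log m ^ 4 * (m : ℝ) ^ 3)) := by
                apply ENNReal.ofReal_le_ofReal
                have h3 : ((s.filter (fun φ => φ.ev = l)).card : ℝ) ≤
                    |C2| * Real.log m ^ 2 * gp l := by
                  refine hcard.trans ?_
                  apply mul_le_mul_of_nonneg_right _ hg.le
                  exact mul_le_mul_of_nonneg_right (le_abs_self _) (by positivity)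
                calc ((s.filter (fun φ => φ.ev = l)).card : ℝ) *
                      (C1 * Real.log m ^ 2 * m ^ 3 / gp l)
                    ≤ (|C2| * Real.log m ^ 2 * gp l) *
                      (C1 * Real.log m ^ 2 * m ^ 3 / gp l) :=
                      mul_le_mul_of_nonneg_right h3 (by positivity)
                  _ = C1 * |C2| * (Real.log m ^ 4 * (m : ℝ) ^ 3) := by
                      field_simp
        · rw [Finset.not_nonempty_iff_eq_empty] at hne
          rw [hne, Finset.sum_empty]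
          exact zero_le
    _ = ENNReal.ofReal (C1 * |C2| * (Real.log m ^ 4 * (m : ℝ) ^ 3) * L.card) := by
        rw [Finset.sum_const, nsmul_eq_mul, ← ENNReal.ofReal_natCast,
          ← ENNReal.ofReal_mul (by positivity)]
        congr 1
        ring

/-- all triples of eigenvalues bounded by `m` -/
noncomputable def bx (m : ℕ) : Finset (Fin 3 → ℤ) := Fintype.piFinset (fun _ : Fin 3 => Finset.Icc (-(m : ℤ)) m)

theorem mem_bx {m : ℕ} {l : Fin 3 → ℤ} : l ∈ bx m ↔ ∀ i, |l i| ≤ (m : ℤ) := by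
  unfold bx
  rw [Fintype.mem_piFinset]
  refine forall_congr' ?_
  intro i
  rw [Finset.mem_Icc, abs_le]

theorem card_bx (m : ℕ) : (bx m).card = (2 * m + 1) ^ 3 := by
  unfold bx
  rw [Fintype.card_piFinset]
  simp only [Finset.prod_const, Finset.card_univ, Fintype.card_fin, Int.card_Icc]
  congr 1
  omega

theorem t_S1 (hL1 : T_L1) (hL2 : T_L2) (hEV3 : T_EV3) : T_S1 := by
  classical
  intro c hc
  obtain ⟨C, hC0, hC⟩ := group_sum hL1 hL2 hc
  refine ⟨27 * C, ?_⟩
  intro m hm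
  rw [ENNReal.tsum_eq_iSup_sum]
  apply iSup_le
  intro t
  have h1 : ∑ φ ∈ t, Set.indicator {φ : Frame | φ.Ang c} (fun φ => bm m φ.M) φ
      ≤ ∑ φ ∈ t.filter (fun φ => φ.Ang c ∧ φ.EvLe m), bm m φ.M := by
    rw [Finset.sum_filter]
    apply Finset.sum_le_sum
    intro φ _
    by_cases hφ : φ.Ang c
    · rw [Set.indicator_of_mem (show φ ∈ {φ : Frame | φ.Ang c} from hφ)]
      by_cases hz : bm m φ.M = 0
      · rw [hz]; exact zero_le
      · rw [if_pos ⟨hφ, bm_ne_zero hEV3 hz⟩]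
    · rw [Set.indicator_of_notMem (show φ ∉ {φ : Frame | φ.Ang c} from hφ)]
      exact zero_le
  refine h1.trans ?_
  refine (hC m (bx m) (t.filter (fun φ => φ.Ang c ∧ φ.EvLe m)) hm ?_).trans ?_
  · intro φ hφ
    have h := (Finset.mem_filter.1 hφ).2
    exact ⟨h.1, h.2, mem_bx.2 h.2⟩
  · apply ENNReal.ofReal_le_ofReal
    rw [card_bx]
    have hl : 0 < Real.log m := Real.log_pos (by exact_mod_cast (by omega : 1 < m))
    have hm1 : (1 : ℝ) ≤ m := by exact_mod_cast (by omega : 1 ≤ m)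
    unfold Zm
    push_cast
    have h3 : (2 * (m : ℝ) + 1) ^ 3 ≤ 27 * (m : ℝ) ^ 3 := by
      have : (2 * (m : ℝ) + 1) ≤ 3 * m := by linarith
      calc (2 * (m : ℝ) + 1) ^ 3 ≤ (3 * m) ^ 3 := pow_le_pow_left₀ (by positivity) this 3
        _ = 27 * (m : ℝ) ^ 3 := by ring
    calc C * (Real.log m ^ 4 * (m : ℝ) ^ 3) * (2 * (m : ℝ) + 1) ^ 3
        ≤ C * (Real.log m ^ 4 * (m : ℝ) ^ 3) * (27 * (m : ℝ) ^ 3) :=
          mul_le_mul_of_nonneg_left h3 (by positivity)
      _ = 27 * C * ((m : ℝ) ^ 6 * Real.log m ^ 4) := by ring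

/-- triples with a small difference -/
theorem card_gap (m k : ℕ) (i j r : Fin 3) (hij : ∀ x : Fin 3, x = i ∨ x = j ∨ x = r) :
    ((bx m).filter (fun l => |l j - l i| ≤ (k : ℤ))).card ≤ (2 * m + 1) ^ 2 * (2 * k + 1) := by
  classical
  have hsub : ((bx m).filter (fun l => |l j - l i| ≤ (k : ℤ))).card ≤
      (Finset.Icc (-(m : ℤ)) m ×ˢ (Finset.Icc (-(m : ℤ)) m ×ˢ Finset.Icc (-(k : ℤ)) k)).card := by
    apply Finset.card_le_card_of_injOn (fun l => (l i, l r, l j - l i))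
    · intro l hl
      rw [Finset.mem_coe, Finset.mem_filter, mem_bx] at hl
      simp only [Finset.coe_product, Set.mem_prod, Finset.mem_coe, Finset.mem_Icc]
      exact ⟨abs_le.1 (hl.1 i), abs_le.1 (hl.1 r), abs_le.1 hl.2⟩
    · intro l _ l' _ h
      simp only [Prod.mk.injEq] at h
      funext x
      rcases hij x with rfl | rfl | rfl
      · exact h.1
      · have := h.1; have := h.2.2; omega
      · exact h.2.1
  refine hsub.trans (le_of_eq ?_)
  rw [Finset.card_product, Finset.card_product, Int.card_Icc, Int.card_Icc]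
  have e1 : ((m : ℤ) + 1 - -(m : ℤ)).toNat = 2 * m + 1 := by omega
  have e2 : ((k : ℤ) + 1 - -(k : ℤ)).toNat = 2 * k + 1 := by omega
  rw [e1, e2]
  ring

theorem t_S5a (hL1 : T_L1) (hL2 : T_L2) (hEV3 : T_EV3) : T_S5a := by
  classical
  intro c hc
  obtain ⟨C, hC0, hC⟩ := group_sum hL1 hL2 hc
  refine ⟨81 * C, ?_⟩
  intro ε hε hε1
  filter_upwards [eventually_ge_atTop 2, eventually_ge_atTop ⌈1 / ε⌉₊] with m hm hmε
  have hmε' : 1 ≤ ε * m := by
    have h1 : 1 / ε ≤ m := (Nat.le_ceil _).trans (by exact_mod_cast hmε)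
    rw [div_le_iff₀ hε] at h1
    linarith
  set k : ℕ := ⌊ε * m⌋₊ with hk
  have hkle : (k : ℝ) ≤ ε * m := Nat.floor_le (by positivity)
  set L : Finset (Fin 3 → ℤ) := (bx m).filter (fun l => |l 1 - l 0| ≤ (k : ℤ)) ∪
    ((bx m).filter (fun l => |l 2 - l 1| ≤ (k : ℤ)) ∪
      (bx m).filter (fun l => |l 2 - l 0| ≤ (k : ℤ))) with hL
  have hLcard : (L.card : ℝ) ≤ 81 * ε * (m : ℝ) ^ 3 := by
    have h1 : L.card ≤ 3 * ((2 * m + 1) ^ 2 * (2 * k + 1)) := by
      have a1 := card_gap m k 0 1 2 (by decide)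
      have a2 := card_gap m k 1 2 0 (by decide)
      have a3 := card_gap m k 0 2 1 (by decide)
      calc L.card ≤ _ := Finset.card_union_le _ _
        _ ≤ _ := Nat.add_le_add_left (Finset.card_union_le _ _) _
        _ ≤ 3 * ((2 * m + 1) ^ 2 * (2 * k + 1)) := by omega
    have h2 : (L.card : ℝ) ≤ 3 * ((2 * (m : ℝ) + 1) ^ 2 * (2 * (k : ℝ) + 1)) := by
      exact_mod_cast h1
    have hm1 : (1 : ℝ) ≤ m := by exact_mod_cast (by omega : 1 ≤ m)
    have h3 : (2 * (m : ℝ) + 1) ^ 2 ≤ 9 * (m : ℝ) ^ 2 := by nlinarith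
    have h4 : 2 * (k : ℝ) + 1 ≤ 3 * (ε * m) := by linarith
    calc (L.card : ℝ) ≤ 3 * ((2 * (m : ℝ) + 1) ^ 2 * (2 * (k : ℝ) + 1)) := h2
      _ ≤ 3 * ((9 * (m : ℝ) ^ 2) * (3 * (ε * m))) := by
          apply mul_le_mul_of_nonneg_left _ (by norm_num)
          exact mul_le_mul h3 h4 (by positivity) (by positivity)
      _ = 81 * ε * (m : ℝ) ^ 3 := by ring
  rw [ENNReal.tsum_eq_iSup_sum]
  apply iSup_le
  intro t
  set P : Frame → Prop := fun φ => φ.Ang c ∧
        (|(φ.x01 : ℝ)| < ε * m ∨ |(φ.x12 : ℝ)| < ε * m ∨ |(φ.x02 : ℝ)| < ε * m) with hP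
  have h1 : ∑ φ ∈ t, Set.indicator {φ : Frame | P φ} (fun φ => bm m φ.M) φ
      ≤ ∑ φ ∈ t.filter (fun φ => P φ ∧ φ.EvLe m), bm m φ.M := by
    rw [Finset.sum_filter]
    apply Finset.sum_le_sum
    intro φ _
    by_cases hφ : P φ
    · rw [Set.indicator_of_mem (show φ ∈ {φ : Frame | P φ} from hφ)]
      by_cases hz : bm m φ.M = 0
      · rw [hz]; exact zero_le
      · rw [if_pos ⟨hφ, bm_ne_zero hEV3 hz⟩]
    · rw [Set.indicator_of_notMem (show φ ∉ {φ : Frame | P φ} from hφ)]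
      exact zero_le
  refine h1.trans ?_
  have key : ∀ x : ℤ, |(x : ℝ)| < ε * m → |x| ≤ (k : ℤ) := by
    intro x hx
    have h2 : x.natAbs ≤ k := by
      apply Nat.le_floor
      rw [Nat.cast_natAbs]
      push_cast
      exact hx.le
    rw [Int.abs_eq_natAbs]
    exact_mod_cast h2
  refine (hC m L (t.filter (fun φ => P φ ∧ φ.EvLe m)) hm ?_).trans ?_
  · intro φ hφ
    have h := (Finset.mem_filter.1 hφ).2
    refine ⟨h.1.1, h.2, ?_⟩
    have hb : φ.ev ∈ bx m := mem_bx.2 h.2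
    rw [hL, Finset.mem_union, Finset.mem_union, Finset.mem_filter, Finset.mem_filter,
      Finset.mem_filter]
    rcases h.1.2 with h3 | h3 | h3
    · exact Or.inl ⟨hb, key _ h3⟩
    · exact Or.inr (Or.inl ⟨hb, key _ h3⟩)
    · exact Or.inr (Or.inr ⟨hb, key _ h3⟩)
  · apply ENNReal.ofReal_le_ofReal
    have hl : 0 < Real.log m := Real.log_pos (by exact_mod_cast (by omega : 1 < m))
    unfold Zm
    calc C * (Real.log m ^ 4 * (m : ℝ) ^ 3) * L.card
        ≤ C * (Real.log m ^ 4 * (m : ℝ) ^ 3) * (81 * ε * (m : ℝ) ^ 3) :=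
          mul_le_mul_of_nonneg_left hLcard (by positivity)
      _ = 81 * C * ε * ((m : ℝ) ^ 6 * Real.log m ^ 4) := by ring

theorem theta_mono_top {O : Set V3} {r R : ℝ} (hr : 0 < r)
    (hO : ∀ x ∈ O, r ≤ ‖x‖ ∧ ‖x‖ ≤ R) (x : VZ) (hx : x ≠ 0) :
    theta O x ≤ ENNReal.ofReal (Real.log R - Real.log r) := by
  unfold theta
  have hx0 : cst x ≠ 0 := by
    intro h
    apply hx
    funext i
    have := congrFun h i
    simpa [cst] using this
  have hn : 0 < ‖cst x‖ := norm_pos_iff.2 hx0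
  have hsub : {s : ℝ | (fun j => Real.exp s * (x j : ℝ)) ∈ O} ⊆
      Set.Icc (Real.log r - Real.log ‖cst x‖) (Real.log R - Real.log ‖cst x‖) := by
    intro s hs
    have h := hO _ hs
    have e : ‖(fun j => Real.exp s * (x j : ℝ))‖ = Real.exp s * ‖cst x‖ := by
      have : (fun j => Real.exp s * (x j : ℝ)) = Real.exp s • cst x := by
        funext j; rfl
      rw [this, norm_smul, Real.norm_eq_abs, abs_of_pos (Real.exp_pos s)]
    rw [e] at h
    constructor
    · have := Real.log_le_log hr h.1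
      rw [Real.log_mul (Real.exp_pos _).ne' hn.ne', Real.log_exp] at this
      linarith
    · have := Real.log_le_log (by positivity) h.2
      rw [Real.log_mul (Real.exp_pos _).ne' hn.ne', Real.log_exp] at this
      linarith
  refine (measure_mono hsub).trans ?_
  rw [Real.volume_Icc]
  apply ENNReal.ofReal_le_ofReal
  linarith

theorem t_S5 (hS5a : T_S5a) (hS5b : T_S5b) (hL1 : T_L1) (hEV3 : T_EV3) : T_S5 := by
  classical
  intro c r R η hc hr hrR hη
  obtain ⟨C1, hC1, hbm⟩ := bm_le hL1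
  obtain ⟨C2, hC2⟩ := hS5a c hc
  set Θ : ℝ := Real.log (2 * R) - Real.log (r / 2) with hΘ
  have hΘ0 : 0 ≤ Θ := by
    rw [hΘ]
    have := Real.log_le_log (by positivity : 0 < r / 2) (by linarith : r / 2 ≤ 2 * R)
    linarith
  set ε : ℝ := min 1 (η / (2 * (|C2| * Θ ^ 3 + 1))) with hε
  have hε0 : 0 < ε := lt_min one_pos (by positivity)
  have hε1 : ε ≤ 1 := min_le_left _ _
  have hεη : |C2| * Θ ^ 3 * ε ≤ η / 2 := by
    have h1 : ε ≤ η / (2 * (|C2| * Θ ^ 3 + 1)) := min_le_right _ _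
    calc |C2| * Θ ^ 3 * ε ≤ (|C2| * Θ ^ 3 + 1) * ε := by nlinarith
      _ ≤ (|C2| * Θ ^ 3 + 1) * (η / (2 * (|C2| * Θ ^ 3 + 1))) :=
          mul_le_mul_of_nonneg_left h1 (by positivity)
      _ = η / 2 := by field_simp
  set η' : ℝ := η * ε ^ 3 / (2 * (C1 + 1)) with hη'
  have hη'0 : 0 < η' := by positivity
  obtain ⟨δ, s0, hδ, hs0, hmain⟩ := hS5b c r R η' hc hr hrR hη'0
  refine ⟨δ, min s0 (r / 4), hδ, by positivity, ?_⟩
  intro s Q hs hss hQ hcard
  have hss0 : s ≤ s0 := hss.trans (min_le_left _ _)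
  have hsr : s ≤ r / 4 := hss.trans (min_le_right _ _)
  set O : Set V3 := ⋃ q ∈ Q, Metric.ball q s with hO
  have hOb : ∀ x ∈ O, r / 2 ≤ ‖x‖ ∧ ‖x‖ ≤ 2 * R := by
    intro x hx
    rw [hO] at hx
    simp only [Set.mem_iUnion, Metric.mem_ball, exists_prop] at hx
    obtain ⟨q, hq, hxq⟩ := hx
    have h1 := hQ q hq
    have h2 : ‖q‖ ≤ ‖x‖ + dist x q := by
      have := norm_sub_norm_le q x
      rw [← dist_eq_norm, dist_comm] at this
      linarith
    have h3 : ‖x‖ ≤ ‖q‖ + dist x q := by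
      have := norm_sub_norm_le x q
      rw [← dist_eq_norm] at this
      linarith
    constructor
    · linarith
    · linarith
  have hθ : ∀ φ : Frame, ∏ i, theta O (φ.v i) ≤ ENNReal.ofReal (Θ ^ 3) := by
    intro φ
    rw [ENNReal.ofReal_pow hΘ0, Fin.prod_univ_three]
    have h := fun i => theta_mono_top (by positivity : 0 < r / 2) hOb (φ.v i) (φ.v_ne i)
    calc theta O (φ.v 0) * theta O (φ.v 1) * theta O (φ.v 2)
        ≤ ENNReal.ofReal Θ * ENNReal.ofReal Θ * ENNReal.ofReal Θ :=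
          mul_le_mul' (mul_le_mul' (h 0) (h 1)) (h 2)
      _ = ENNReal.ofReal Θ ^ 3 := by ring
  filter_upwards [hC2 ε hε0 hε1, hmain s Q hs hss0 hQ hcard, eventually_ge_atTop 2]
    with m h1 h2 hm
  have hl : 0 < Real.log m := Real.log_pos (by exact_mod_cast (by omega : 1 < m))
  have hm0 : (0 : ℝ) < m := by exact_mod_cast (by omega : 0 < m)
  have hZ := Zm_pos hm
  -- pointwise bound
  set A : Set Frame := {φ : Frame | φ.Ang c ∧
        (|(φ.x01 : ℝ)| < ε * m ∨ |(φ.x12 : ℝ)| < ε * m ∨ |(φ.x02 : ℝ)| < ε * m)} with hA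
  set B : ℝ≥0∞ := ENNReal.ofReal (C1 * Real.log m ^ 2 / ε ^ 3) with hB
  have hpt : ∀ φ : Frame, Set.indicator {φ : Frame | φ.Ang c}
      (fun φ => bm m φ.M * ∏ i, theta O (φ.v i)) φ ≤
      Set.indicator A (fun φ => bm m φ.M) φ * ENNReal.ofReal (Θ ^ 3) +
      B * Set.indicator {φ : Frame | φ.Ang c ∧ φ.EvLe m}
          (fun φ => ∏ i, theta O (φ.v i)) φ := by
    intro φ
    by_cases hφ : φ.Ang c
    · rw [Set.indicator_of_mem (show φ ∈ {φ : Frame | φ.Ang c} from hφ)]
      by_cases hφA : φ ∈ A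
      · rw [Set.indicator_of_mem hφA]
        exact (mul_le_mul_right (hθ φ) _).trans le_self_add
      · by_cases hz : bm m φ.M = 0
        · rw [hz, zero_mul]; exact zero_le
        · have hev := bm_ne_zero hEV3 hz
          rw [Set.indicator_of_mem (show φ ∈ {φ : Frame | φ.Ang c ∧ φ.EvLe m} from ⟨hφ, hev⟩)]
          refine le_trans ?_ le_add_self
          apply mul_le_mul_left
          refine (hbm m φ hm).trans ?_
          apply ENNReal.ofReal_le_ofReal
          have hg : ε ^ 3 * (m : ℝ) ^ 3 ≤ gp φ.ev := by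
            have hn : ¬ (|(φ.x01 : ℝ)| < ε * m ∨ |(φ.x12 : ℝ)| < ε * m ∨
              |(φ.x02 : ℝ)| < ε * m) := fun h => hφA ⟨hφ, h⟩
            push Not at hn
            obtain ⟨g1, g2, g3⟩ := hn
            unfold gp
            have e1 : ε ^ 3 * (m : ℝ) ^ 3 = (ε * m) * (ε * m) * (ε * m) := by ring
            rw [e1]
            have p : 0 ≤ ε * m := by positivity
            exact mul_le_mul (mul_le_mul g1 g2 p (p.trans g1)) g3 p
              (mul_nonneg (p.trans g1) (p.trans g2))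
          calc C1 * Real.log m ^ 2 * m ^ 3 / gp φ.ev
              ≤ C1 * Real.log m ^ 2 * m ^ 3 / (ε ^ 3 * (m : ℝ) ^ 3) := by
                apply div_le_div_of_nonneg_left (by positivity) (by positivity) hg
            _ = C1 * Real.log m ^ 2 / ε ^ 3 := by field_simp
    · rw [Set.indicator_of_notMem (show φ ∉ {φ : Frame | φ.Ang c} from hφ)]
      exact zero_le
  calc ∑' φ : Frame, Set.indicator {φ : Frame | φ.Ang c}
        (fun φ => bm m φ.M * ∏ i, theta O (φ.v i)) φ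
      ≤ ∑' φ : Frame, (Set.indicator A (fun φ => bm m φ.M) φ * ENNReal.ofReal (Θ ^ 3) +
          B * Set.indicator {φ : Frame | φ.Ang c ∧ φ.EvLe m}
          (fun φ => ∏ i, theta O (φ.v i)) φ) := ENNReal.tsum_le_tsum hpt
    _ = (∑' φ : Frame, Set.indicator A (fun φ => bm m φ.M) φ) * ENNReal.ofReal (Θ ^ 3) +
          B * ∑' φ : Frame, Set.indicator {φ : Frame | φ.Ang c ∧ φ.EvLe m}
          (fun φ => ∏ i, theta O (φ.v i)) φ := by
        rw [ENNReal.tsum_add, ENNReal.tsum_mul_right, ENNReal.tsum_mul_left]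
    _ ≤ ENNReal.ofReal (C2 * ε * Zm m) * ENNReal.ofReal (Θ ^ 3) +
          B * ENNReal.ofReal (η' * ((m : ℝ) ^ 6 * Real.log m ^ 2)) := by
        exact add_le_add (mul_le_mul_left h1 _) (mul_le_mul_right h2 _)
    _ ≤ ENNReal.ofReal (|C2| * ε * Zm m) * ENNReal.ofReal (Θ ^ 3) +
          B * ENNReal.ofReal (η' * ((m : ℝ) ^ 6 * Real.log m ^ 2)) := by
        apply add_le_add_left
        apply mul_le_mul_left
        apply ENNReal.ofReal_le_ofReal
        apply mul_le_mul_of_nonneg_right _ hZ.le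
        exact mul_le_mul_of_nonneg_right (le_abs_self _) hε0.le
    _ = ENNReal.ofReal (|C2| * Θ ^ 3 * ε * Zm m +
          (C1 * Real.log m ^ 2 / ε ^ 3) * (η' * ((m : ℝ) ^ 6 * Real.log m ^ 2))) := by
        rw [ENNReal.ofReal_add (by positivity) (by positivity), hB,
          ← ENNReal.ofReal_mul (by positivity), ← ENNReal.ofReal_mul (by positivity)]
        congr 2
        ring
    _ ≤ ENNReal.ofReal (η * Zm m) := by
        apply ENNReal.ofReal_le_ofReal
        have e2 : (C1 * Real.log m ^ 2 / ε ^ 3) * (η' * ((m : ℝ) ^ 6 * Real.log m ^ 2)) =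
            (C1 / (C1 + 1)) * (η / 2) * Zm m := by
          rw [hη']
          unfold Zm
          field_simp
        rw [e2]
        have e3 : C1 / (C1 + 1) ≤ 1 := by
          rw [div_le_one (by positivity)]; linarith
        have e4 : (C1 / (C1 + 1)) * (η / 2) * Zm m ≤ η / 2 * Zm m := by
          apply mul_le_mul_of_nonneg_right _ hZ.le
          nlinarith
        have e5 : |C2| * Θ ^ 3 * ε * Zm m ≤ η / 2 * Zm m := mul_le_mul_of_nonneg_right hεη hZ.le
        linarith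

end KF
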