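import Mathlib
import Pool.Agent.H22.KF.Main
import Pool.Agent.H22.KF.LIM
import Pool.Agent.H22.KF.P34
import Pool.Agent.H22.KF.P5
import Pool.Agent.H22.KF.S1
import Pool.Agent.H22.KF.INV
import Pool.Agent.H27.KF.STRIP
import Pool.Agent.H27.KF.GO
import Pool.Agent.H27.KF.FRM
import Pool.Agent.H27.KF.S4
import Pool.Agent.H27.KF.BX
import Pool.Agent.H26.KF.PC
import Pool.Agent.H48.KF.BULK
import Pool.Agent.H48.KF.SM
import Pool.Agent.H48.KF.HOPF
import Pool.Agent.H62.KF.FACE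
import Pool.Agent.H62.KF.FD
import Pool.Agent.H62.KF.HAAR
import Pool.Agent.H62.KF.WM
import Pool.Agent.H65.KF.CL
import Pool.Agent.H65.KF.STAB
import Pool.Agent.H83.KF.CQ
import Pool.Agent.H92.KF.L1
import Pool.Agent.H42.KF.GOOD
import Pool.Agent.H42.KF.UC
import Pool.Agent.H42.KF.CNT
import Pool.Agent.H48.KF.S5b
import Pool.Agent.H58.KF.ERG
import Pool.Agent.H58.KF.MEAN
import Pool.Agent.H62.KF.HW
import Pool.Agent.H65.KF.COV
import Pool.Agent.H83.KF.EX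
import Pool.Agent.H26.KF.MC

/-!
# MP_3fd637_nt : assembly of the modules
-/

open MeasureTheory Filter Topology
open scoped ENNReal

namespace KF

theorem t_L1 : T_L1 := KF92.L1 KFL.BM KFL.EV1 KFL.EV3 KFL.W0

theorem t_SM : T_SM := KF48.sm KFL.TR KFL.TR2 KFL.BXC KFL.BM Pool.Agent.H26.KF.pc KFL.SGN KFL.W0

theorem t_BULK : T_BULK := KF48B.bulk t_SM

theorem t_CQ : T_CQ := KF83.cq KF65.cl

theorem t_UC : T_UC := KFUC.UC t_DISC

theorem t_CNT : T_CNT := KFCNT.CNT KFL.FRM KFL.SGN KFL.F48 t_FACE t_WM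

theorem t_P3' : T_P3 := t_P3 (t_S1 t_L1 KFL.L2 KFL.EV3)

/-- everything except the lower bound for the flag sum -/
theorem assemble (hFL : T_FL) : T_MAIN := by
  have hMC : T_MC := Pool.Agent.H26.KF.mc hFL
  have hS5b : T_S5b := KF48B.s5b KFL.W0 KFL.GO KFL.STRIP t_BULK t_CQ
  have hS5 : T_S5 := t_S5 (t_S5a t_L1 KFL.L2 KFL.EV3) hS5b t_L1 KFL.EV3
  have hP5 : T_P5 := t_P5 hS5
  have hP4 : T_P4 := t_P4 (KFL.S4 hMC)
  have hERG : T_ERG := KF58.ERG t_HAAR t_DISC t_FD KF65.cov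
  have hM : T_MEAN := KF58.MEAN hERG t_UC t_HAAR t_DISC
  have hG : T_GOOD := KFGOOD.GOOD hM t_UC t_HAAR
  have hH : T_HOPF := KF48.hopf hG t_UC t_FD KF65.cov t_HAAR t_DISC
  have hL : T_LIM := t_LIM t_HAAR t_P3' hP4 hP5 t_INV hH
  exact main_of t_HAAR t_P3' t_W t_HW t_CNT KF65.stab (KF83EX.ex t_FACE) hL

end KF
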