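import Mathlib
import Pool.Agent.H22.KF.Assemble
import Pool.Agent.H42.KF.FL

/-!
# MP_3fd637_nt : the main theorem
-/

open MeasureTheory Filter Topology
open scoped ENNReal

namespace KF

/-- the main theorem -/
theorem t_MAIN : T_MAIN := assemble KFFL.FL

end KF
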