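import Mathlib
import Pool.Agent.H22.KF.Final

/-!
# MP_3fd637_nt : the two explicit faces
-/

open MeasureTheory Filter Topology
open scoped ENNReal

namespace KF

/-- the triangle with vertices `(0,0,1), (2,0,1), (0,2,1)` -/
def F1 : Set (Vec 2) := convexHull ℝ {![0, 0, 1], ![2, 0, 1], ![0, 2, 1]}

/-- the triangle with vertices `(0,0,1), (2,0,1), (0,3,1)` -/
def F2 : Set (Vec 2) := convexHull ℝ {![0, 0, 1], ![2, 0, 1], ![0, 3, 1]}

theorem poly_S1 : poly S1 = F1 := by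
  unfold poly F1 S1
  congr 1
  simp [Set.image_insert_eq]

theorem poly_S2 : poly S2 = F2 := by
  unfold poly F2 S2
  congr 1
  simp [Set.image_insert_eq]

theorem two_faces :
    (0 < moebius F1 ∧ moebius F1 < ∞) ∧ (0 < moebius F2 ∧ moebius F2 < ∞) ∧
    Tendsto (fun m : ℕ => (cntF F1 m : ℝ) / (cntF F2 m : ℝ)) atTop
      (𝓝 ((moebius F1).toReal / (6 * (moebius F2).toReal))) := by
  obtain ⟨hR1, hR2, hp1, hp2⟩ := KF83EX.ex t_FACE
  have ht1 := moebius_lt_top t_HAAR t_W t_HW dim2_S1 hR1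
  have ht2 := moebius_lt_top t_HAAR t_W t_HW dim2_S2 hR2
  have hl := t_MAIN.2.2 S1 S2 dim2_S1 dim2_S2 hR1 hR2 hp2
  rw [KF65.stab.2.1, KF65.stab.2.2] at hl
  rw [poly_S1] at hp1 ht1 hl
  rw [poly_S2] at hp2 ht2 hl
  refine ⟨⟨hp1, lt_top_iff_ne_top.2 ht1⟩, ⟨hp2, lt_top_iff_ne_top.2 ht2⟩, ?_⟩
  convert hl using 2
  push_cast
  rw [div_one, div_div]

end KF
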